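import Pool.Agent.R999.Rem.Defs

set_option autoImplicit false

open MeasureTheory Matrix

namespace Pool.Agent.R999.Rem

variable {m n : ℕ}

/-- same row -/
def J1 (m n : ℕ) : Matrix (Obs m n) (Obs m n) ℝ := Matrix.of fun p q => if p.1 = q.1 then 1 else 0
/-- same column -/
def J2 (m n : ℕ) : Matrix (Obs m n) (Obs m n) ℝ := Matrix.of fun p q => if p.2 = q.2 then 1 else 0
/-- all ones -/
def J0 (m n : ℕ) : Matrix (Obs m n) (Obs m n) ℝ := Matrix.of fun _ _ => 1

lemma V_eq (θ : Par) : V m n θ = θ 0 • (1 : Matrix (Obs m n) (Obs m n) ℝ) + θ 1 • J1 m n +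
    θ 2 • J2 m n := by
  unfold V
  rw [add_assoc]
  congr 1
  ext p q
  simp only [Matrix.mul_apply, Fintype.sum_sum_type, G, Z, Matrix.transpose_apply,
    Matrix.of_apply, Sum.elim_inl, Sum.elim_inr, Matrix.add_apply,
    Matrix.smul_apply, J1, J2, smul_eq_mul]
  congr 1
  · simp [ite_mul, mul_ite, eq_comm, Matrix.diagonal_apply]
  · simp [ite_mul, mul_ite, eq_comm, Matrix.diagonal_apply]

lemma J11 : J1 m n * J1 m n = (n : ℝ) • J1 m n := by
  ext p q
  simp only [Matrix.mul_apply, J1, Matrix.of_apply, Matrix.smul_apply, smul_eq_mul,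
    Fintype.sum_prod_type]
  by_cases h : p.1 = q.1
  · simp [h]
  · simp [h]
    
lemma J22 : J2 m n * J2 m n = (m : ℝ) • J2 m n := by
  ext p q
  simp only [Matrix.mul_apply, J2, Matrix.of_apply, Matrix.smul_apply, smul_eq_mul,
    Fintype.sum_prod_type]
  by_cases h : p.2 = q.2
  · simp [h]
  · simp [h]

lemma J12 : J1 m n * J2 m n = J0 m n := by
  ext p q
  simp only [Matrix.mul_apply, J1, J2, J0, Matrix.of_apply, Fintype.sum_prod_type]
  simp

lemma J21 : J2 m n * J1 m n = J0 m n := by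
  ext p q
  simp only [Matrix.mul_apply, J1, J2, J0, Matrix.of_apply, Fintype.sum_prod_type]
  simp

lemma J10 : J1 m n * J0 m n = (n : ℝ) • J0 m n := by
  rw [← J12, ← Matrix.mul_assoc, J11, Matrix.smul_mul]

lemma J20 : J2 m n * J0 m n = (m : ℝ) • J0 m n := by
  rw [← J21, ← Matrix.mul_assoc, J22, Matrix.smul_mul]

/-- The candidate for the inverse. -/
noncomputable def W (m n : ℕ) (θ : Par) : Matrix (Obs m n) (Obs m n) ℝ :=
  (1 / θ 0) • (1 : Matrix (Obs m n) (Obs m n) ℝ) +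
    ((1 / (θ 0 + n * θ 1) - 1 / θ 0) / n) • J1 m n +
    ((1 / (θ 0 + m * θ 2) - 1 / θ 0) / m) • J2 m n +
    ((1 / θ 0 - 1 / (θ 0 + n * θ 1) - 1 / (θ 0 + m * θ 2) + 1 / (θ 0 + n * θ 1 + m * θ 2)) /
      (m * n)) • J0 m n

/-- All components positive. -/
def Pos (θ : Par) : Prop := ∀ k, 0 < θ k

lemma V_inv (hm : 0 < m) (hn : 0 < n) {θ : Par} (h : Pos θ) : (V m n θ)⁻¹ = W m n θ := by
  refine Matrix.inv_eq_right_inv ?_
  have h0 := h 0
  have h1 := h 1
  have h2 := h 2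
  have hm' : (0:ℝ) < m := by exact_mod_cast hm
  have hn' : (0:ℝ) < n := by exact_mod_cast hn
  have a1 : 0 < θ 0 + n * θ 1 := by positivity
  have a2 : 0 < θ 0 + m * θ 2 := by positivity
  have a3 : 0 < θ 0 + n * θ 1 + m * θ 2 := by positivity
  rw [V_eq]
  unfold W
  set A := (1 / (θ 0 + n * θ 1) - 1 / θ 0) / n with hA
  set B := (1 / (θ 0 + m * θ 2) - 1 / θ 0) / m with hB
  set D := (1 / θ 0 - 1 / (θ 0 + n * θ 1) - 1 / (θ 0 + m * θ 2) + 1 / (θ 0 + n * θ 1 + m * θ 2)) /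
      (m * n) with hD
  have e1 : θ 0 * A + θ 1 * (1 / θ 0) + θ 1 * A * n = 0 := by
    rw [hA]; field_simp; ring
  have e2 : θ 0 * B + θ 2 * (1 / θ 0) + θ 2 * B * m = 0 := by
    rw [hB]; field_simp; ring
  have e3 : θ 0 * D + θ 1 * B + θ 1 * D * n + θ 2 * A + θ 2 * D * m = 0 := by
    rw [hA, hB, hD]; field_simp; ring
  have e0 : θ 0 * (1 / θ 0) = 1 := by field_simp
  have key : (θ 0 • (1 : Matrix (Obs m n) (Obs m n) ℝ) + θ 1 • J1 m n + θ 2 • J2 m n) *
      ((1 / θ 0) • (1 : Matrix (Obs m n) (Obs m n) ℝ) + A • J1 m n + B • J2 m n + D • J0 m n) =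
      (θ 0 * (1 / θ 0)) • (1 : Matrix (Obs m n) (Obs m n) ℝ) +
      (θ 0 * A + θ 1 * (1 / θ 0) + θ 1 * A * n) • J1 m n +
      (θ 0 * B + θ 2 * (1 / θ 0) + θ 2 * B * m) • J2 m n +
      (θ 0 * D + θ 1 * B + θ 1 * D * n + θ 2 * A + θ 2 * D * m) • J0 m n := by
    simp only [add_mul, mul_add, Matrix.smul_mul, Matrix.mul_smul, Matrix.one_mul, Matrix.mul_one,
      J11, J22, J12, J21, J10, J20, smul_smul, add_smul]
    module
  rw [key, e0, e1, e2, e3]
  simp

/-! ### The determinant -/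

lemma det_one_add_ones {k : ℕ} (c : ℝ) :
    (1 + c • (Matrix.of fun _ _ => 1 : Matrix (Fin k) (Fin k) ℝ)).det = 1 + c * k := by
  have h : c • (Matrix.of fun _ _ => 1 : Matrix (Fin k) (Fin k) ℝ) =
      Matrix.replicateCol Unit (fun _ => c) * Matrix.replicateRow Unit (fun _ => (1:ℝ)) := by
    ext i j
    simp [Matrix.mul_apply]
  rw [h, Matrix.det_one_add_replicateCol_mul_replicateRow]
  simp [dotProduct, mul_comm]

lemma det_one_add_J0 (c : ℝ) : (1 + c • J0 m n).det = 1 + c * (m * n) := by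
  have h : c • J0 m n =
      Matrix.replicateCol Unit (fun _ => c) * Matrix.replicateRow Unit (fun _ => (1:ℝ)) := by
    ext i j
    simp [Matrix.mul_apply, J0]
  rw [h, Matrix.det_one_add_replicateCol_mul_replicateRow]
  simp [dotProduct, mul_comm]

lemma det_one_add_J1 (c : ℝ) : (1 + c • J1 m n).det = (1 + c * n) ^ m := by
  have h : 1 + c • J1 m n = Matrix.kroneckerMap (fun x y => x * y) (1 : Matrix (Fin m) (Fin m) ℝ)
      (1 + c • (Matrix.of fun _ _ => 1 : Matrix (Fin n) (Fin n) ℝ)) := by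
    ext p q
    simp only [Matrix.add_apply, Matrix.one_apply, Matrix.smul_apply, J1, Matrix.of_apply,
      Matrix.kroneckerMap_apply, Prod.ext_iff, smul_eq_mul]
    by_cases h1 : p.1 = q.1 <;> by_cases h2 : p.2 = q.2 <;> simp [h1, h2]
  rw [h, Matrix.det_kronecker, det_one_add_ones]
  simp

lemma det_one_add_J2 (c : ℝ) : (1 + c • J2 m n).det = (1 + c * m) ^ n := by
  have h : 1 + c • J2 m n = Matrix.kroneckerMap (fun x y => x * y)
      (1 + c • (Matrix.of fun _ _ => 1 : Matrix (Fin m) (Fin m) ℝ))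
      (1 : Matrix (Fin n) (Fin n) ℝ) := by
    ext p q
    simp only [Matrix.add_apply, Matrix.one_apply, Matrix.smul_apply, J2, Matrix.of_apply,
      Matrix.kroneckerMap_apply, Prod.ext_iff, smul_eq_mul]
    by_cases h1 : p.1 = q.1 <;> by_cases h2 : p.2 = q.2 <;> simp [h1, h2]
  rw [h, Matrix.det_kronecker, det_one_add_ones]
  simp

lemma V_det {θ : Par} (h : Pos θ) :
    (V m n θ).det = θ 0 ^ (m * n) * (((θ 0 + n * θ 1) / θ 0) ^ m * ((θ 0 + m * θ 2) / θ 0) ^ n *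
      ((θ 0 + n * θ 1 + m * θ 2) * θ 0 / ((θ 0 + n * θ 1) * (θ 0 + m * θ 2)))) := by
  have h0 := h 0
  have h1 := h 1
  have h2 := h 2
  have hm' : (0:ℝ) ≤ m := by positivity
  have hn' : (0:ℝ) ≤ n := by positivity
  have a1 : 0 < θ 0 + n * θ 1 := by positivity
  have a2 : 0 < θ 0 + m * θ 2 := by positivity
  set c := - (θ 1 * θ 2) / ((θ 0 + n * θ 1) * (θ 0 + m * θ 2)) with hc
  have key : V m n θ = θ 0 • ((1 + (θ 1 / θ 0) • J1 m n) * (1 + (θ 2 / θ 0) • J2 m n) *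
      (1 + c • J0 m n)) := by
    rw [V_eq]
    have e1 : θ 1 = θ 0 * (θ 1 / θ 0) := by field_simp
    have e2 : θ 2 = θ 0 * (θ 2 / θ 0) := by field_simp
    have e3 : (θ 1 / θ 0) * (θ 2 / θ 0) + c * (1 + (θ 1 / θ 0) * n) * (1 + (θ 2 / θ 0) * m) = 0 := by
      rw [hc]; field_simp; ring
    have J00 : J0 m n * J0 m n = ((m : ℝ) * n) • J0 m n := by
      conv_lhs => rw [← J12, Matrix.mul_assoc, J12]
      rw [J20, Matrix.mul_smul, J10, smul_smul]
    have h5 : (1 + (θ 1 / θ 0) • J1 m n) * (1 + (θ 2 / θ 0) • J2 m n) * (1 + c • J0 m n) =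
        1 + (θ 1 / θ 0) • J1 m n + (θ 2 / θ 0) • J2 m n + ((θ 1 / θ 0) * (θ 2 / θ 0) +
          c * (1 + (θ 1 / θ 0) * n) * (1 + (θ 2 / θ 0) * m)) • J0 m n := by
      simp only [add_mul, mul_add, Matrix.smul_mul, Matrix.mul_smul, Matrix.one_mul,
        Matrix.mul_one, J12, J10, J20, J00, smul_smul]
      module
    rw [h5, e3]
    conv_lhs => rw [e1, e2]
    module
  rw [key, Matrix.det_smul, Matrix.det_mul, Matrix.det_mul, det_one_add_J1, det_one_add_J2,
    det_one_add_J0]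
  congr 1
  · simp
  · congr 1
    · congr 1
      · congr 1; field_simp
      · congr 1; field_simp
    · rw [hc]; field_simp; ring

end Pool.Agent.R999.Rem
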