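import Pool.Agent.R999.Rem.Lin

set_option autoImplicit false

open MeasureTheory ProbabilityTheory Filter Topology

namespace Pool.Agent.R999.Rem

section cls
variable {Ω : Type*} [MeasurableSpace Ω] {P : Measure Ω} [IsProbabilityMeasure P]

/-- bounded eighth moment -/
structure C8 (P : Measure Ω) (B : ℝ) (f : Ω → ℝ) : Prop where
  meas : AEStronglyMeasurable f P
  int : Integrable (fun ω => f ω ^ 8) P
  le : ∫ ω, f ω ^ 8 ∂P ≤ B

lemma C8.neg {B : ℝ} {f : Ω → ℝ} (h : C8 P B f) : C8 P B (fun ω => -f ω) := by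
  have e : (fun ω => (-f ω) ^ 8) = fun ω => f ω ^ 8 := by funext ω; ring
  exact ⟨h.meas.neg, by rw [e]; exact h.int, by rw [e]; exact h.le⟩

lemma C8.conv {ι : Type*} [Fintype ι] {B : ℝ} {f : ι → Ω → ℝ} (hf : ∀ i, C8 P B (f i))
    (w : ι → ℝ) (hw : ∀ i, 0 ≤ w i) (hw1 : ∑ i, w i = 1) : C8 P B (fun ω => ∑ i, w i * f i ω) := by
  have hp : ∀ ω, (∑ i, w i * f i ω) ^ 8 ≤ ∑ i, w i * f i ω ^ 8 := fun ω =>
    Real.pow_arith_mean_le_arith_mean_pow_of_even Finset.univ w (fun i => f i ω)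
      (fun i _ => hw i) hw1 (n := 8) (by decide)
  have hm : AEStronglyMeasurable (fun ω => ∑ i, w i * f i ω) P := by
    have := Finset.aestronglyMeasurable_sum (s := Finset.univ) (f := fun i ω => w i * f i ω)
      fun i _ => ((hf i).meas.const_mul (w i))
    refine this.congr ?_
    filter_upwards with ω
    simp
  have hi : Integrable (fun ω => ∑ i, w i * f i ω ^ 8) P :=
    integrable_finsetSum _ fun i _ => (hf i).int.const_mul _
  have hI : Integrable (fun ω => (∑ i, w i * f i ω) ^ 8) P := by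
    refine Integrable.mono' hi (hm.pow 8) ?_
    filter_upwards with ω
    rw [Real.norm_of_nonneg (by positivity)]
    exact hp ω
  refine ⟨hm, hI, (integral_mono hI hi hp).trans ?_⟩
  rw [integral_finsetSum _ fun i _ => (hf i).int.const_mul _]
  simp_rw [integral_const_mul]
  calc ∑ i, w i * ∫ ω, f i ω ^ 8 ∂P ≤ ∑ i, w i * B :=
        Finset.sum_le_sum fun i _ => mul_le_mul_of_nonneg_left (hf i).le (hw i)
    _ = B := by rw [← Finset.sum_mul, hw1, one_mul]

lemma C8.mean {ι : Type*} [Fintype ι] {B : ℝ} {f : ι → Ω → ℝ} (hf : ∀ i, C8 P B (f i)) {c : ℝ}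
    (hc : c = Fintype.card ι) (h0 : 0 < c) : C8 P B (fun ω => (∑ i, f i ω) / c) := by
  have := C8.conv hf (fun _ => 1 / c) (fun _ => by positivity)
    (by rw [Finset.sum_const, nsmul_eq_mul, Finset.card_univ, ← hc]; field_simp)
  refine ⟨?_, ?_, ?_⟩
  all_goals
    have e : (fun ω => (∑ i, f i ω) / c) = fun ω => ∑ i, (1 / c) * f i ω := by
      funext ω; rw [← Finset.mul_sum]; ring
  · rw [e]; exact this.meas
  · have e2 : (fun ω => ((∑ i, f i ω) / c) ^ 8) = fun ω => (∑ i, (1 / c) * f i ω) ^ 8 := by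
      funext ω; rw [← Finset.mul_sum]; ring
    rw [e2]; exact this.int
  · have e2 : (fun ω => ((∑ i, f i ω) / c) ^ 8) = fun ω => (∑ i, (1 / c) * f i ω) ^ 8 := by
      funext ω; rw [← Finset.mul_sum]; ring
    rw [e2]; exact this.le

lemma C8.four {B : ℝ} {f g h k : Ω → ℝ} (hf : C8 P B f) (hg : C8 P B g) (hh : C8 P B h)
    (hk : C8 P B k) : C8 P B (fun ω => (f ω + g ω + h ω + k ω) / 4) := by
  have := C8.mean (ι := Fin 4) (f := ![f, g, h, k]) (P := P) (B := B) (c := 4)
    (by intro i; fin_cases i <;> assumption) (by simp) (by norm_num)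
  have e : (fun ω => (∑ i, (![f, g, h, k] : Fin 4 → Ω → ℝ) i ω) / 4) =
      fun ω => (f ω + g ω + h ω + k ω) / 4 := by
    funext ω
    simp [Fin.sum_univ_four]
  rw [e] at this
  exact this

/-- means of squares have bounded fourth moment -/
lemma C8.quad {ι : Type*} [Fintype ι] {B : ℝ} {f : ι → Ω → ℝ} (hf : ∀ i, C8 P B (f i)) {c : ℝ}
    (hc : c = Fintype.card ι) (h0 : 0 < c) :
    Integrable (fun ω => ((∑ i, f i ω ^ 2) / c) ^ 4) P ∧
      ∫ ω, ((∑ i, f i ω ^ 2) / c) ^ 4 ∂P ≤ B := by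
  have hp : ∀ ω, ((∑ i, f i ω ^ 2) / c) ^ 4 ≤ (∑ i, f i ω ^ 8) / c := by
    intro ω
    have h1 := Real.pow_arith_mean_le_arith_mean_pow_of_even Finset.univ (fun _ : ι => 1 / c)
      (fun i => f i ω ^ 2)
      (fun i _ => by positivity)
      (by rw [Finset.sum_const, nsmul_eq_mul, Finset.card_univ, ← hc]; field_simp)
      (n := 4) (by decide)
    rw [← Finset.mul_sum, ← Finset.mul_sum] at h1
    have e1 : (∑ i, f i ω ^ 2) / c = 1 / c * ∑ i, f i ω ^ 2 := by ring
    have e2 : (∑ i, f i ω ^ 8) / c = 1 / c * ∑ i, (f i ω ^ 2) ^ 4 := by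
      simp_rw [← pow_mul]; norm_num; ring
    rw [e1, e2]
    exact h1
  have hm : AEStronglyMeasurable (fun ω => (∑ i, f i ω ^ 2) / c) P := by
    have := Finset.aestronglyMeasurable_sum (s := Finset.univ) (f := fun i ω => f i ω ^ 2)
      fun i _ => ((hf i).meas.pow 2)
    have h2 := this.const_mul (1 / c)
    refine h2.congr ?_
    filter_upwards with ω
    simp [div_eq_inv_mul]
  have hi : Integrable (fun ω => (∑ i, f i ω ^ 8) / c) P :=
    (integrable_finsetSum _ fun i _ => (hf i).int).div_const _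
  have hI : Integrable (fun ω => ((∑ i, f i ω ^ 2) / c) ^ 4) P := by
    refine Integrable.mono' hi (hm.pow 4) ?_
    filter_upwards with ω
    rw [Real.norm_of_nonneg (by positivity)]
    exact hp ω
  refine ⟨hI, (integral_mono hI hi hp).trans ?_⟩
  rw [integral_div, integral_finsetSum _ fun i _ => (hf i).int, div_le_iff₀ h0]
  calc ∑ i, ∫ ω, f i ω ^ 8 ∂P ≤ ∑ _i : ι, B := Finset.sum_le_sum fun i _ => (hf i).le
    _ = B * c := by rw [Finset.sum_const, nsmul_eq_mul, Finset.card_univ, ← hc, mul_comm]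

end cls

variable {m n : ℕ}

section
variable (hm : 2 ≤ m) (hn : 2 ≤ n) {F : Fin 3 → Measure ℝ} {θ κ : Par} (hF : Laws F θ κ)
include hF

lemma law_prob : IsProbabilityMeasure (law m n F) := by
  rw [law_eq]
  have := fun s : Ix m n => hF.prob (kk s)
  infer_instance

lemma coord8 (s : Ix m n) : C8 (law m n F) (K8 F) (fun ω => ω s) := by
  have h := momH (m := m) (n := n) hF
  refine ⟨(continuous_apply s).aestronglyMeasurable, ?_, ?_⟩
  · rw [law_eq]; exact h.coord_int s le_rfl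
  · rw [law_eq, h.coord]; exact h.m8 s

include hm hn

lemma rho8 (i : Fin m) : C8 (law m n F) (K8 F) (fun ω => rho ω i / 4) := by
  have := law_prob (m := m) (n := n) hF
  have hm' : (0:ℝ) < m := by exact_mod_cast (by omega : 0 < m)
  have hn' : (0:ℝ) < n := by exact_mod_cast (by omega : 0 < n)
  have h1 := coord8 (m := m) (n := n) hF (Sum.inl i)
  have h2 := (C8.mean (fun i : Fin m => coord8 (m := m) (n := n) hF (Sum.inl i)) (c := m)
    (by simp) hm').neg
  have h3 := C8.mean (fun j : Fin n => coord8 (m := m) (n := n) hF (Sum.inr (Sum.inr (i, j))))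
    (c := n) (by simp) hn'
  have h4 := (C8.mean (fun p : Obs m n => coord8 (m := m) (n := n) hF (Sum.inr (Sum.inr p)))
    (c := m * n) (by simp) (by positivity)).neg
  have h5 := C8.four h1 h2 h3 h4
  have e : (fun ω : Ix m n → ℝ => rho ω i / 4) = fun ω => (ω (Sum.inl i) +
      -((∑ i, ω (Sum.inl i)) / (m:ℝ)) + (∑ j, ω (Sum.inr (Sum.inr (i, j)))) / (n:ℝ) +
      -((∑ p, ω (Sum.inr (Sum.inr p))) / ((m:ℝ) * n))) / (4:ℝ) := by
    funext ω
    unfold rho uu Rs Ts ee
    ring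
  rw [e]
  exact h5

lemma gam8 (j : Fin n) : C8 (law m n F) (K8 F) (fun ω => gam ω j / 4) := by
  have := law_prob (m := m) (n := n) hF
  have hm' : (0:ℝ) < m := by exact_mod_cast (by omega : 0 < m)
  have hn' : (0:ℝ) < n := by exact_mod_cast (by omega : 0 < n)
  have h1 := coord8 (m := m) (n := n) hF (Sum.inr (Sum.inl j))
  have h2 := (C8.mean (fun j : Fin n => coord8 (m := m) (n := n) hF (Sum.inr (Sum.inl j)))
    (c := n) (by simp) hn').neg
  have h3 := C8.mean (fun i : Fin m => coord8 (m := m) (n := n) hF (Sum.inr (Sum.inr (i, j))))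
    (c := m) (by simp) hm'
  have h4 := (C8.mean (fun p : Obs m n => coord8 (m := m) (n := n) hF (Sum.inr (Sum.inr p)))
    (c := m * n) (by simp) (by positivity)).neg
  have h5 := C8.four h1 h2 h3 h4
  have e : (fun ω : Ix m n → ℝ => gam ω j / 4) = fun ω => (ω (Sum.inr (Sum.inl j)) +
      -((∑ j, ω (Sum.inr (Sum.inl j))) / (n:ℝ)) + (∑ i, ω (Sum.inr (Sum.inr (i, j)))) / (m:ℝ) +
      -((∑ p, ω (Sum.inr (Sum.inr p))) / ((m:ℝ) * n))) / (4:ℝ) := by
    funext ω
    unfold gam vv Cs Ts ee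
    ring
  rw [e]
  exact h5

lemma res8 (p : Obs m n) : C8 (law m n F) (K8 F) (fun ω => res ω p / 4) := by
  have := law_prob (m := m) (n := n) hF
  have hm' : (0:ℝ) < m := by exact_mod_cast (by omega : 0 < m)
  have hn' : (0:ℝ) < n := by exact_mod_cast (by omega : 0 < n)
  have h1 := coord8 (m := m) (n := n) hF (Sum.inr (Sum.inr p))
  have h2 := (C8.mean (fun j : Fin n => coord8 (m := m) (n := n) hF (Sum.inr (Sum.inr (p.1, j))))
    (c := n) (by simp) hn').neg
  have h3 := (C8.mean (fun i : Fin m => coord8 (m := m) (n := n) hF (Sum.inr (Sum.inr (i, p.2))))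
    (c := m) (by simp) hm').neg
  have h4 := (C8.mean (fun p : Obs m n => coord8 (m := m) (n := n) hF (Sum.inr (Sum.inr p)))
    (c := m * n) (by simp) (by positivity))
  have h5 := C8.four h1 h2 h3 h4
  have e : (fun ω : Ix m n → ℝ => res ω p / 4) = fun ω => (ω (Sum.inr (Sum.inr p)) +
      -((∑ j, ω (Sum.inr (Sum.inr (p.1, j)))) / (n:ℝ)) +
      -((∑ i, ω (Sum.inr (Sum.inr (i, p.2)))) / (m:ℝ)) +
      ((∑ p, ω (Sum.inr (Sum.inr p))) / ((m:ℝ) * n))) / (4:ℝ) := by
    funext ω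
    unfold res Rs Cs Ts ee
    ring
  rw [e]
  exact h5

end

end Pool.Agent.R999.Rem
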