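import Mathlib

/-!
# The crossed random effects model of MP_ca614b_pr: definitions
-/

set_option autoImplicit false

open MeasureTheory Matrix

namespace Pool.Agent.R999.Rem

/-- `θ = (σ₀², σ₁², σ₂²)` and `(κ₀, κ₁, κ₂)` are vectors with three components. -/
abbrev Par := Fin 3 → ℝ

section
variable {m1 m2 : ℕ}

/-- The observations `y_{ij}`, with `i` the outer index. -/
abbrev Obs (m1 m2 : ℕ) := Fin m1 × Fin m2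

/-- `Z = (I ⊗ 1, 1 ⊗ I)`. -/
def Z (m1 m2 : ℕ) : Matrix (Obs m1 m2) (Fin m1 ⊕ Fin m2) ℝ :=
  Matrix.of fun p => Sum.elim (fun i => if p.1 = i then 1 else 0) (fun j => if p.2 = j then 1 else 0)

/-- `G = diag(σ₁² I, σ₂² I)`. -/
def G (m1 m2 : ℕ) (θ : Par) : Matrix (Fin m1 ⊕ Fin m2) (Fin m1 ⊕ Fin m2) ℝ :=
  Matrix.diagonal (Sum.elim (fun _ => θ 1) (fun _ => θ 2))

/-- `V = σ₀² I + Z G Z'`. -/
noncomputable def V (m1 m2 : ℕ) (θ : Par) : Matrix (Obs m1 m2) (Obs m1 m2) ℝ :=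
  θ 0 • (1 : Matrix (Obs m1 m2) (Obs m1 m2) ℝ) + Z m1 m2 * G m1 m2 θ * (Z m1 m2)ᵀ

/-- The vector of ones. -/
def ones : Obs m1 m2 → ℝ := fun _ => 1

/-- The grand mean. -/
noncomputable def ybar (y : Obs m1 m2 → ℝ) : ℝ := (∑ p, y p) / (m1 * m2)

/-- The BLUP `a₀ ȳ + a' G Z' V⁻¹ (y - ȳ 1)`, where `a = (a₁', a₂')'`. -/
noncomputable def blup (a0 : ℝ) (a1 : Fin m1 → ℝ) (a2 : Fin m2 → ℝ) (y : Obs m1 m2 → ℝ)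
    (θ : Par) : ℝ :=
  a0 * ybar y + Sum.elim a1 a2 ⬝ᵥ (G m1 m2 θ *ᵥ ((Z m1 m2)ᵀ *ᵥ ((V m1 m2 θ)⁻¹ *ᵥ (y - ybar y • ones))))

/-- `P = V⁻¹ - V⁻¹ 1 (1' V⁻¹ 1)⁻¹ 1' V⁻¹`. -/
noncomputable def P (m1 m2 : ℕ) (θ : Par) : Matrix (Obs m1 m2) (Obs m1 m2) ℝ :=
  (V m1 m2 θ)⁻¹ - (ones ⬝ᵥ ((V m1 m2 θ)⁻¹ *ᵥ ones))⁻¹ •
    vecMulVec ((V m1 m2 θ)⁻¹ *ᵥ ones) (ones ᵥ* (V m1 m2 θ)⁻¹)

/-- The Gaussian restricted (REML) log-likelihood, up to an additive constant: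
`-(1/2) (log |V| + log |1' V⁻¹ 1| + y' P y)`. -/
noncomputable def reml (y : Obs m1 m2 → ℝ) (θ : Par) : ℝ :=
  -(1/2) * (Real.log (V m1 m2 θ).det + Real.log (ones ⬝ᵥ ((V m1 m2 θ)⁻¹ *ᵥ ones)) +
    y ⬝ᵥ (P m1 m2 θ *ᵥ y))

/-- The partial derivative `∂f/∂θ_k`. -/
noncomputable def pd (k : Fin 3) (f : Par → ℝ) (θ : Par) : ℝ :=
  deriv (fun s => f (Function.update θ k s)) (θ k)

/-- The index set of the random variables `u_i`, `v_j`, `e_{ij}`. -/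
abbrev Ix (m1 m2 : ℕ) := Fin m1 ⊕ Fin m2 ⊕ Obs m1 m2

/-- The data `y_{ij} = μ + u_i + v_j + e_{ij}`. -/
def obs (μ : ℝ) (ω : Ix m1 m2 → ℝ) : Obs m1 m2 → ℝ :=
  fun p => μ + ω (Sum.inl p.1) + ω (Sum.inr (Sum.inl p.2)) + ω (Sum.inr (Sum.inr p))

/-- The joint law of the independent random variables `u_i ∼ F₁`, `v_j ∼ F₂`, `e_{ij} ∼ F₀`. -/
noncomputable def law (m1 m2 : ℕ) (F : Fin 3 → Measure ℝ) : Measure (Ix m1 m2 → ℝ) :=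
  Measure.pi (Sum.elim (fun _ => F 1) (Sum.elim (fun _ => F 2) (fun _ => F 0)))

/-- `h = ∂ζ̃/∂θ` at `θ`. -/
noncomputable def hvec (a0 : ℝ) (a1 : Fin m1 → ℝ) (a2 : Fin m2 → ℝ) (y : Obs m1 m2 → ℝ)
    (θ : Par) : Par := fun k => pd k (blup a0 a1 a2 y) θ

/-- `b = ∂l/∂θ` at `θ`. -/
noncomputable def bvec (y : Obs m1 m2 → ℝ) (θ : Par) : Par := fun k => pd k (reml y) θ

/-- `∂²l/∂θ∂θ'` at `θ`. -/
noncomputable def hess (y : Obs m1 m2 → ℝ) (θ : Par) (j k : Fin 3) : ℝ := pd j (pd k (reml y)) θ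

/-- `A = E(∂²l/∂θ∂θ')`. -/
noncomputable def A (m1 m2 : ℕ) (F : Fin 3 → Measure ℝ) (μ : ℝ) (θ : Par) :
    Matrix (Fin 3) (Fin 3) ℝ :=
  Matrix.of fun j k => ∫ ω, hess (obs μ ω) θ j k ∂(law m1 m2 F)

/-- The random variable `h' A⁻¹ b`. -/
noncomputable def hAb (F : Fin 3 → Measure ℝ) (μ : ℝ) (θ : Par) (a0 : ℝ) (a1 : Fin m1 → ℝ)
    (a2 : Fin m2 → ℝ) (ω : Ix m1 m2 → ℝ) : ℝ :=
  hvec a0 a1 a2 (obs μ ω) θ ⬝ᵥ ((A m1 m2 F μ θ)⁻¹ *ᵥ bvec (obs μ ω) θ)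

/-- `g₃ = E (h' A⁻¹ b)²`. -/
noncomputable def g3 (F : Fin 3 → Measure ℝ) (μ : ℝ) (θ : Par) (a0 : ℝ) (a1 : Fin m1 → ℝ)
    (a2 : Fin m2 → ℝ) : ℝ :=
  ∫ ω, hAb F μ θ a0 a1 a2 ω ^ 2 ∂(law m1 m2 F)

end

/-- `F₀, F₁, F₂` are probability laws with mean `0`, variances `θ`, fourth moments `κ` and finite
eighth moments. -/
structure Laws (F : Fin 3 → Measure ℝ) (θ κ : Par) : Prop where
  prob : ∀ k, IsProbabilityMeasure (F k)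
  eighth : ∀ k, Integrable (fun x => x ^ 8) (F k)
  mean : ∀ k, ∫ x, x ∂(F k) = 0
  var : ∀ k, ∫ x, x ^ 2 ∂(F k) = θ k
  fourth : ∀ k, ∫ x, x ^ 4 ∂(F k) = κ k

/-- `|a₀| + ‖a₁‖ + ‖a₂‖ ≤ C`. -/
def CoefBd {m1 m2 : ℕ} (C a0 : ℝ) (a1 : Fin m1 → ℝ) (a2 : Fin m2 → ℝ) : Prop :=
  |a0| + Real.sqrt (∑ i, a1 i ^ 2) + Real.sqrt (∑ j, a2 j ^ 2) ≤ C

end Pool.Agent.R999.Rem
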