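import Pool.Agent.R999.Rem.Quad

set_option autoImplicit false

open MeasureTheory Matrix Filter Topology

namespace Pool.Agent.R999.Rem

variable {m n : ℕ}

lemma pd_congr {f g : Par → ℝ} (hfg : ∀ θ, Pos θ → f θ = g θ) {θ : Par} (h : Pos θ) (k : Fin 3) :
    pd k f θ = pd k g θ := by
  unfold pd
  refine Filter.EventuallyEq.deriv_eq ?_
  filter_upwards [isOpen_Ioi.mem_nhds (h k)] with s hs
  refine hfg _ fun j => ?_
  by_cases hj : j = k
  · subst hj; simpa using hs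
  · rw [Function.update_of_ne hj]; exact h j

lemma upd0_0 (θ : Par) (s : ℝ) : Function.update θ 0 s 0 = s := by simp
lemma upd1_0 (θ : Par) (s : ℝ) : Function.update θ 1 s 0 = θ 0 := by simp
lemma upd2_0 (θ : Par) (s : ℝ) : Function.update θ 2 s 0 = θ 0 := by simp
lemma upd0_l1 (θ : Par) (s : ℝ) : l1 n (Function.update θ 0 s) = s + n * θ 1 := by simp [l1]
lemma upd1_l1 (θ : Par) (s : ℝ) : l1 n (Function.update θ 1 s) = θ 0 + n * s := by simp [l1]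
lemma upd2_l1 (θ : Par) (s : ℝ) : l1 n (Function.update θ 2 s) = l1 n θ := by simp [l1]
lemma upd0_l2 (θ : Par) (s : ℝ) : l2 m (Function.update θ 0 s) = s + m * θ 2 := by simp [l2]
lemma upd1_l2 (θ : Par) (s : ℝ) : l2 m (Function.update θ 1 s) = l2 m θ := by simp [l2]
lemma upd2_l2 (θ : Par) (s : ℝ) : l2 m (Function.update θ 2 s) = θ 0 + m * s := by simp [l2]

section gen
variable {θ : Par} {g0 g1 g2 : ℝ → ℝ} {d0 d1 d2 : ℝ}

lemma pd0 (h0 : HasDerivAt g0 d0 (θ 0)) (h1 : HasDerivAt g1 d1 (l1 n θ))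
    (h2 : HasDerivAt g2 d2 (l2 m θ)) :
    pd 0 (fun t => g0 (t 0) + g1 (l1 n t) + g2 (l2 m t)) θ = d0 + d1 + d2 := by
  unfold pd
  simp only [upd0_0, upd0_l1, upd0_l2]
  have e1 : HasDerivAt (fun s : ℝ => s + n * θ 1) 1 (θ 0) := by
    simpa using (hasDerivAt_id (θ 0)).add_const ((n:ℝ) * θ 1)
  have e2 : HasDerivAt (fun s : ℝ => s + m * θ 2) 1 (θ 0) := by
    simpa using (hasDerivAt_id (θ 0)).add_const ((m:ℝ) * θ 2)
  have f1 := HasDerivAt.comp (θ 0) (h₂ := g1) (h := fun s : ℝ => s + n * θ 1) h1 e1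
  have f2 := HasDerivAt.comp (θ 0) (h₂ := g2) (h := fun s : ℝ => s + m * θ 2) h2 e2
  have := ((h0.add f1).add f2).deriv
  simp only [mul_one] at this
  exact this

lemma pd1 (h1 : HasDerivAt g1 d1 (l1 n θ)) :
    pd 1 (fun t => g0 (t 0) + g1 (l1 n t) + g2 (l2 m t)) θ = n * d1 := by
  unfold pd
  simp only [upd1_0, upd1_l1, upd1_l2]
  have e1 : HasDerivAt (fun s : ℝ => θ 0 + n * s) n (θ 1) := by
    simpa using ((hasDerivAt_id (θ 1)).const_mul (n:ℝ)).const_add (θ 0)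
  have f1 := HasDerivAt.comp (θ 1) (h₂ := g1) (h := fun s : ℝ => θ 0 + n * s) h1 e1
  have := ((f1.const_add (g0 (θ 0))).add_const (g2 (l2 m θ))).deriv
  rw [mul_comm]
  exact this

lemma pd2 (h2 : HasDerivAt g2 d2 (l2 m θ)) :
    pd 2 (fun t => g0 (t 0) + g1 (l1 n t) + g2 (l2 m t)) θ = m * d2 := by
  unfold pd
  simp only [upd2_0, upd2_l1, upd2_l2]
  have e1 : HasDerivAt (fun s : ℝ => θ 0 + m * s) m (θ 2) := by
    simpa using ((hasDerivAt_id (θ 2)).const_mul (m:ℝ)).const_add (θ 0)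
  have f1 := HasDerivAt.comp (θ 2) (h₂ := g2) (h := fun s : ℝ => θ 0 + m * s) h2 e1
  have := (f1.const_add (g0 (θ 0) + g1 (l1 n θ))).deriv
  rw [mul_comm]
  exact this
end gen

/-- one term of the likelihood -/
noncomputable def lk (c S x : ℝ) : ℝ := -(1/2) * (c * Real.log x + S / x)
/-- its derivative -/
noncomputable def ph (c S x : ℝ) : ℝ := -(1/2) * (c / x - S / x ^ 2)
/-- its second derivative -/
noncomputable def dph (c S x : ℝ) : ℝ := -(1/2) * (-c / x ^ 2 + 2 * S / x ^ 3)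

lemma lk_der {c S x : ℝ} (hx : 0 < x) : HasDerivAt (lk c S) (ph c S x) x := by
  have h1 := ((Real.hasDerivAt_log hx.ne').const_mul c).add
    ((hasDerivAt_inv hx.ne').const_mul S)
  have h2 := h1.const_mul (-(1/2) : ℝ)
  refine (h2.congr_deriv ?_).congr_of_eventuallyEq ?_
  · unfold ph; field_simp; ring
  · filter_upwards with s
    unfold lk
    simp [div_eq_mul_inv]

lemma ph_der {c S x : ℝ} (hx : 0 < x) : HasDerivAt (ph c S) (dph c S x) x := by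
  have h1 := ((hasDerivAt_inv hx.ne').const_mul c).sub
    (((hasDerivAt_inv hx.ne').pow 2).const_mul S)
  have h2 := h1.const_mul (-(1/2) : ℝ)
  refine (h2.congr_deriv ?_).congr_of_eventuallyEq ?_
  · unfold dph
    simp only [Nat.cast_ofNat, Nat.add_one_sub_one, pow_one]
    field_simp
    ring
  · filter_upwards with s
    unfold ph
    simp [div_eq_mul_inv]

lemma mul_ph_der {a c S x : ℝ} (hx : 0 < x) :
    HasDerivAt (fun x => a * ph c S x) (a * dph c S x) x := (ph_der hx).const_mul a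

lemma zero_der (x : ℝ) : HasDerivAt (fun _ : ℝ => (0:ℝ)) 0 x := hasDerivAt_const x 0

section
variable (hm : 0 < m) (hn : 0 < n) (y : Obs m n → ℝ)
include hm hn

lemma reml_eq' {θ : Par} (h : Pos θ) : reml y θ =
    (fun x => lk (((m:ℝ) - 1) * (n - 1)) (SSe y) x - 1/2 * Real.log (m * n)) (θ 0) +
      lk ((m:ℝ) - 1) (SS1 y) (l1 n θ) + lk ((n:ℝ) - 1) (SS2 y) (l2 m θ) := by
  rw [reml_eq hm hn h]
  unfold lk
  ring

lemma reml_pd0 {θ : Par} (h : Pos θ) : pd 0 (reml y) θ =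
    ph (((m:ℝ) - 1) * (n - 1)) (SSe y) (θ 0) + ph ((m:ℝ) - 1) (SS1 y) (l1 n θ) +
      ph ((n:ℝ) - 1) (SS2 y) (l2 m θ) := by
  rw [pd_congr (fun t ht => reml_eq' hm hn y ht) h]
  exact pd0 (g0 := fun x => lk (((m:ℝ) - 1) * (n - 1)) (SSe y) x - 1/2 * Real.log (m * n))
    ((lk_der (h 0)).sub_const _) (lk_der (l1_pos h)) (lk_der (l2_pos h))

lemma reml_pd1 {θ : Par} (h : Pos θ) : pd 1 (reml y) θ = n * ph ((m:ℝ) - 1) (SS1 y) (l1 n θ) := by
  rw [pd_congr (fun t ht => reml_eq' hm hn y ht) h]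
  exact pd1 (g0 := fun x => lk (((m:ℝ) - 1) * (n - 1)) (SSe y) x - 1/2 * Real.log (m * n))
    (lk_der (l1_pos h))

lemma reml_pd2 {θ : Par} (h : Pos θ) : pd 2 (reml y) θ = m * ph ((n:ℝ) - 1) (SS2 y) (l2 m θ) := by
  rw [pd_congr (fun t ht => reml_eq' hm hn y ht) h]
  exact pd2 (g0 := fun x => lk (((m:ℝ) - 1) * (n - 1)) (SSe y) x - 1/2 * Real.log (m * n))
    (lk_der (l2_pos h))

lemma h00 {θ : Par} (h : Pos θ) : hess y θ 0 0 =
    dph (((m:ℝ) - 1) * (n - 1)) (SSe y) (θ 0) + dph ((m:ℝ) - 1) (SS1 y) (l1 n θ) +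
      dph ((n:ℝ) - 1) (SS2 y) (l2 m θ) := by
  unfold hess
  rw [pd_congr (fun t ht => reml_pd0 hm hn y ht) h]
  exact pd0 (ph_der (h 0)) (ph_der (l1_pos h)) (ph_der (l2_pos h))

lemma h10 {θ : Par} (h : Pos θ) : hess y θ 1 0 = n * dph ((m:ℝ) - 1) (SS1 y) (l1 n θ) := by
  unfold hess
  rw [pd_congr (fun t ht => reml_pd0 hm hn y ht) h]
  exact pd1 (ph_der (l1_pos h))

lemma h20 {θ : Par} (h : Pos θ) : hess y θ 2 0 = m * dph ((n:ℝ) - 1) (SS2 y) (l2 m θ) := by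
  unfold hess
  rw [pd_congr (fun t ht => reml_pd0 hm hn y ht) h]
  exact pd2 (ph_der (l2_pos h))

lemma reml_pd1' {θ : Par} (h : Pos θ) : pd 1 (reml y) θ =
    (fun _ => (0:ℝ)) (θ 0) + (fun x => n * ph ((m:ℝ) - 1) (SS1 y) x) (l1 n θ) +
      (fun _ => (0:ℝ)) (l2 m θ) := by
  rw [reml_pd1 hm hn y h]; simp

lemma reml_pd2' {θ : Par} (h : Pos θ) : pd 2 (reml y) θ =
    (fun _ => (0:ℝ)) (θ 0) + (fun _ => (0:ℝ)) (l1 n θ) +
      (fun x => m * ph ((n:ℝ) - 1) (SS2 y) x) (l2 m θ) := by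
  rw [reml_pd2 hm hn y h]; simp

lemma h01 {θ : Par} (h : Pos θ) : hess y θ 0 1 = n * dph ((m:ℝ) - 1) (SS1 y) (l1 n θ) := by
  unfold hess
  rw [pd_congr (fun t ht => reml_pd1' hm hn y ht) h]
  exact (pd0 (m := m) (n := n) (zero_der _) (mul_ph_der (l1_pos h)) (zero_der _)).trans (by ring)

lemma h11 {θ : Par} (h : Pos θ) : hess y θ 1 1 = n * (n * dph ((m:ℝ) - 1) (SS1 y) (l1 n θ)) := by
  unfold hess
  rw [pd_congr (fun t ht => reml_pd1' hm hn y ht) h]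
  exact pd1 (m := m) (n := n) (g0 := fun _ => (0:ℝ)) (g2 := fun _ => (0:ℝ)) (mul_ph_der (l1_pos h))

lemma h21 {θ : Par} (h : Pos θ) : hess y θ 2 1 = 0 := by
  unfold hess
  rw [pd_congr (fun t ht => reml_pd1' hm hn y ht) h]
  exact (pd2 (m := m) (n := n) (g0 := fun _ => (0:ℝ))
    (g1 := fun x => n * ph ((m:ℝ) - 1) (SS1 y) x) (zero_der _)).trans (by ring)

lemma h02 {θ : Par} (h : Pos θ) : hess y θ 0 2 = m * dph ((n:ℝ) - 1) (SS2 y) (l2 m θ) := by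
  unfold hess
  rw [pd_congr (fun t ht => reml_pd2' hm hn y ht) h]
  exact (pd0 (m := m) (n := n) (zero_der _) (zero_der _) (mul_ph_der (l2_pos h))).trans (by ring)

lemma h12 {θ : Par} (h : Pos θ) : hess y θ 1 2 = 0 := by
  unfold hess
  rw [pd_congr (fun t ht => reml_pd2' hm hn y ht) h]
  exact (pd1 (m := m) (n := n) (g0 := fun _ => (0:ℝ))
    (g2 := fun x => m * ph ((n:ℝ) - 1) (SS2 y) x) (zero_der _)).trans (by ring)

lemma h22 {θ : Par} (h : Pos θ) : hess y θ 2 2 = m * (m * dph ((n:ℝ) - 1) (SS2 y) (l2 m θ)) := by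
  unfold hess
  rw [pd_congr (fun t ht => reml_pd2' hm hn y ht) h]
  exact pd2 (m := m) (n := n) (g0 := fun _ => (0:ℝ)) (g1 := fun _ => (0:ℝ)) (mul_ph_der (l2_pos h))

/-! ### the vector `h` -/

variable (a0 : ℝ) (a1 : Fin m → ℝ) (a2 : Fin n → ℝ)

lemma hv0 {θ : Par} (h : Pos θ) : hvec a0 a1 a2 y θ 0 =
    (-(1 / l1 n θ) + θ 0 / l1 n θ ^ 2) * X1 a1 y + (-(1 / l2 m θ) + θ 0 / l2 m θ ^ 2) * X2 a2 y := by
  unfold hvec
  rw [pd_congr (fun t ht => blup_eq hm hn ht a0 a1 a2 y) h]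
  unfold pd
  simp only [upd0_0, upd0_l1, upd0_l2]
  have p1 := l1_pos (n := n) h
  have p2 := l2_pos (m := m) h
  have e1 : HasDerivAt (fun s : ℝ => s + n * θ 1) 1 (θ 0) := by
    simpa using (hasDerivAt_id (θ 0)).add_const ((n:ℝ) * θ 1)
  have e2 : HasDerivAt (fun s : ℝ => s + m * θ 2) 1 (θ 0) := by
    simpa using (hasDerivAt_id (θ 0)).add_const ((m:ℝ) * θ 2)
  have f1 := (((hasDerivAt_id (θ 0)).div e1 (show θ 0 + n * θ 1 ≠ 0 from p1.ne')).const_sub 1).mul_const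
    (X1 a1 y)
  have f2 := (((hasDerivAt_id (θ 0)).div e2 (show θ 0 + m * θ 2 ≠ 0 from p2.ne')).const_sub 1).mul_const
    (X2 a2 y)
  have := ((f1.const_add (a0 * ybar y)).add f2).deriv
  refine Eq.trans this ?_
  change -((1 * (θ 0 + n * θ 1) - θ 0 * 1) / (θ 0 + n * θ 1) ^ 2) * X1 a1 y +
    -((1 * (θ 0 + m * θ 2) - θ 0 * 1) / (θ 0 + m * θ 2) ^ 2) * X2 a2 y = _
  unfold l1 l2 at *
  field_simp
  ring

lemma hv1 {θ : Par} (h : Pos θ) : hvec a0 a1 a2 y θ 1 = n * θ 0 / l1 n θ ^ 2 * X1 a1 y := by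
  unfold hvec
  rw [pd_congr (fun t ht => blup_eq hm hn ht a0 a1 a2 y) h]
  unfold pd
  simp only [upd1_0, upd1_l1, upd1_l2]
  have p1 := l1_pos (n := n) h
  have e1 : HasDerivAt (fun s : ℝ => θ 0 + n * s) n (θ 1) := by
    simpa using ((hasDerivAt_id (θ 1)).const_mul (n:ℝ)).const_add (θ 0)
  have f1 := ((((hasDerivAt_const (θ 1) (θ 0)).div e1
    (show θ 0 + n * θ 1 ≠ 0 from p1.ne')).const_sub 1).mul_const (X1 a1 y))
  have := ((f1.const_add (a0 * ybar y)).add_const ((1 - θ 0 / l2 m θ) * X2 a2 y)).deriv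
  refine Eq.trans this ?_
  change -((0 * (θ 0 + n * θ 1) - θ 0 * n) / (θ 0 + n * θ 1) ^ 2) * X1 a1 y = _
  unfold l1 at *
  field_simp
  ring

lemma hv2 {θ : Par} (h : Pos θ) : hvec a0 a1 a2 y θ 2 = m * θ 0 / l2 m θ ^ 2 * X2 a2 y := by
  unfold hvec
  rw [pd_congr (fun t ht => blup_eq hm hn ht a0 a1 a2 y) h]
  unfold pd
  simp only [upd2_0, upd2_l1, upd2_l2]
  have p1 := l2_pos (m := m) h
  have e1 : HasDerivAt (fun s : ℝ => θ 0 + m * s) m (θ 2) := by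
    simpa using ((hasDerivAt_id (θ 2)).const_mul (m:ℝ)).const_add (θ 0)
  have f1 := ((((hasDerivAt_const (θ 2) (θ 0)).div e1
    (show θ 0 + m * θ 2 ≠ 0 from p1.ne')).const_sub 1).mul_const (X2 a2 y))
  have := (f1.const_add (a0 * ybar y + (1 - θ 0 / l1 n θ) * X1 a1 y)).deriv
  refine Eq.trans this ?_
  change -((0 * (θ 0 + m * θ 2) - θ 0 * m) / (θ 0 + m * θ 2) ^ 2) * X2 a2 y = _
  unfold l2 at *
  field_simp
  ring

end

end Pool.Agent.R999.Rem
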