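import Pool.Agent.R999.Rem.Bd

set_option autoImplicit false

open MeasureTheory ProbabilityTheory Filter Topology Matrix

namespace Pool.Agent.R999.Rem

variable {m n : ℕ}

section
variable (hm : 2 ≤ m) (hn : 2 ≤ n) {F : Fin 3 → Measure ℝ} {θ κ : Par} (hF : Laws F θ κ)
  (hθ : Pos θ) (μ : ℝ)
include hF hm hn

lemma dph_int {c x : ℝ} {Q : (Ix m n → ℝ) → ℝ} (hQ : Integrable Q (law m n F))
    (hE : ∫ ω, Q ω ∂(law m n F) = c * x) (hx : 0 < x) :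
    Integrable (fun ω => dph c (Q ω) x) (law m n F) ∧
    ∫ ω, dph c (Q ω) x ∂(law m n F) = -(c / (2 * x ^ 2)) := by
  have := law_prob (m := m) (n := n) hF
  have e : ∀ ω, dph c (Q ω) x = c / (2 * x ^ 2) + Q ω * (-(1 / x ^ 3)) := by
    intro ω; unfold dph; field_simp; ring
  simp_rw [e]
  have i1 : Integrable (fun ω => Q ω * (-(1 / x ^ 3))) (law m n F) := hQ.mul_const _
  refine ⟨(integrable_const _).add i1, ?_⟩
  rw [integral_add (integrable_const _) i1, integral_mul_const, hE]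
  simp only [integral_const, probReal_univ, smul_eq_mul, one_mul]
  field_simp
  ring

include hθ

/-- The Hessian is integrable and its expectation is as computed. -/
lemma A_eq : (∀ j k, Integrable (fun ω => hess (obs μ ω) θ j k) (law m n F)) ∧
    A m n F μ θ = !![-(((m:ℝ) - 1) * (n - 1) / (2 * θ 0 ^ 2) + ((m:ℝ) - 1) / (2 * l1 n θ ^ 2) +
      ((n:ℝ) - 1) / (2 * l2 m θ ^ 2)), -(n * (((m:ℝ) - 1) / (2 * l1 n θ ^ 2))),
        -(m * (((n:ℝ) - 1) / (2 * l2 m θ ^ 2)));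
      -(n * (((m:ℝ) - 1) / (2 * l1 n θ ^ 2))), -(n * (n * (((m:ℝ) - 1) / (2 * l1 n θ ^ 2)))), 0;
      -(m * (((n:ℝ) - 1) / (2 * l2 m θ ^ 2))), 0, -(m * (m * (((n:ℝ) - 1) / (2 * l2 m θ ^ 2))))] := by
  have hm0 : 0 < m := by omega
  have hn0 : 0 < n := by omega
  obtain ⟨ie, ve⟩ := SSe_int hm0 hn0 hF μ
  obtain ⟨i1, v1⟩ := SS1_int hm0 hn0 hF μ
  obtain ⟨i2, v2⟩ := SS2_int hm0 hn0 hF μ
  obtain ⟨je, we⟩ := dph_int hm hn hF ie ve (hθ 0)
  obtain ⟨j1, w1⟩ := dph_int hm hn hF i1 v1 (l1_pos hθ)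
  obtain ⟨j2, w2⟩ := dph_int hm hn hF i2 v2 (l2_pos hθ)
  have hint : ∀ j k, Integrable (fun ω => hess (obs μ ω) θ j k) (law m n F) := by
    intro j k
    fin_cases j <;> fin_cases k
    · change Integrable (fun ω => hess (obs μ ω) θ 0 0) _
      simp_rw [h00 hm0 hn0 _ hθ]; exact (je.add j1).add j2
    · change Integrable (fun ω => hess (obs μ ω) θ 0 1) _
      simp_rw [h01 hm0 hn0 _ hθ]; exact j1.const_mul _
    · change Integrable (fun ω => hess (obs μ ω) θ 0 2) _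
      simp_rw [h02 hm0 hn0 _ hθ]; exact j2.const_mul _
    · change Integrable (fun ω => hess (obs μ ω) θ 1 0) _
      simp_rw [h10 hm0 hn0 _ hθ]; exact j1.const_mul _
    · change Integrable (fun ω => hess (obs μ ω) θ 1 1) _
      simp_rw [h11 hm0 hn0 _ hθ]; exact (j1.const_mul _).const_mul _
    · change Integrable (fun ω => hess (obs μ ω) θ 1 2) _
      simp_rw [h12 hm0 hn0 _ hθ]; exact integrable_zero _ _ _
    · change Integrable (fun ω => hess (obs μ ω) θ 2 0) _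
      simp_rw [h20 hm0 hn0 _ hθ]; exact j2.const_mul _
    · change Integrable (fun ω => hess (obs μ ω) θ 2 1) _
      simp_rw [h21 hm0 hn0 _ hθ]; exact integrable_zero _ _ _
    · change Integrable (fun ω => hess (obs μ ω) θ 2 2) _
      simp_rw [h22 hm0 hn0 _ hθ]; exact (j2.const_mul _).const_mul _
  refine ⟨hint, ?_⟩
  ext j k
  unfold A
  rw [Matrix.of_apply]
  fin_cases j <;> fin_cases k
  · change ∫ ω, hess (obs μ ω) θ 0 0 ∂_ = -(_ + _ + _)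
    simp_rw [h00 hm0 hn0 _ hθ]
    rw [int_add3 je j1 j2, we, w1, w2]; ring
  · change ∫ ω, hess (obs μ ω) θ 0 1 ∂_ = -(n * (((m:ℝ) - 1) / (2 * l1 n θ ^ 2)))
    simp_rw [h01 hm0 hn0 _ hθ]
    rw [integral_const_mul, w1]; ring
  · change ∫ ω, hess (obs μ ω) θ 0 2 ∂_ = -(m * (((n:ℝ) - 1) / (2 * l2 m θ ^ 2)))
    simp_rw [h02 hm0 hn0 _ hθ]
    rw [integral_const_mul, w2]; ring
  · change ∫ ω, hess (obs μ ω) θ 1 0 ∂_ = -(n * (((m:ℝ) - 1) / (2 * l1 n θ ^ 2)))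
    simp_rw [h10 hm0 hn0 _ hθ]
    rw [integral_const_mul, w1]; ring
  · change ∫ ω, hess (obs μ ω) θ 1 1 ∂_ = -(n * (n * (((m:ℝ) - 1) / (2 * l1 n θ ^ 2))))
    simp_rw [h11 hm0 hn0 _ hθ]
    rw [integral_const_mul, integral_const_mul, w1]; ring
  · change ∫ ω, hess (obs μ ω) θ 1 2 ∂_ = 0
    simp_rw [h12 hm0 hn0 _ hθ]
    simp
  · change ∫ ω, hess (obs μ ω) θ 2 0 ∂_ = -(m * (((n:ℝ) - 1) / (2 * l2 m θ ^ 2)))
    simp_rw [h20 hm0 hn0 _ hθ]
    rw [integral_const_mul, w2]; ring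
  · change ∫ ω, hess (obs μ ω) θ 2 1 ∂_ = 0
    simp_rw [h21 hm0 hn0 _ hθ]
    simp
  · change ∫ ω, hess (obs μ ω) θ 2 2 ∂_ = -(m * (m * (((n:ℝ) - 1) / (2 * l2 m θ ^ 2))))
    simp_rw [h22 hm0 hn0 _ hθ]
    rw [integral_const_mul, integral_const_mul, w2]; ring

lemma A_unit : IsUnit (A m n F μ θ).det := by
  rw [(A_eq hm hn hF hθ μ).2, isUnit_iff_ne_zero, Matrix.det_fin_three]
  have hm1 : (0:ℝ) < (m:ℝ) - 1 := by
    have : (2:ℝ) ≤ m := by exact_mod_cast hm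
    linarith
  have hn1 : (0:ℝ) < (n:ℝ) - 1 := by
    have : (2:ℝ) ≤ n := by exact_mod_cast hn
    linarith
  have hm' : (0:ℝ) < m := by linarith
  have hn' : (0:ℝ) < n := by linarith
  have h0 := hθ 0
  have p1 := l1_pos (n := n) hθ
  have p2 := l2_pos (m := m) hθ
  simp only [Matrix.of_apply, Matrix.cons_val', Matrix.cons_val_zero, Matrix.cons_val_one,
    Matrix.cons_val]
  set we := ((m:ℝ) - 1) * (n - 1) / (2 * θ 0 ^ 2) with hwe
  set w1 := ((m:ℝ) - 1) / (2 * l1 n θ ^ 2) with hw1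
  set w2 := ((n:ℝ) - 1) / (2 * l2 m θ ^ 2) with hw2
  have q0 : 0 < we := by rw [hwe]; positivity
  have q1 : 0 < w1 := by rw [hw1]; positivity
  have q2 : 0 < w2 := by rw [hw2]; positivity
  have : -(we * w1 * w2 * n ^ 2 * m ^ 2) ≠ 0 := by
    have : 0 < we * w1 * w2 * n ^ 2 * m ^ 2 := by positivity
    linarith
  convert this using 1
  ring

/-- the vector `A⁻¹ b` -/
lemma Ainv_b (ω : Ix m n → ℝ) : (A m n F μ θ)⁻¹ *ᵥ bvec (obs μ ω) θ =
    ![θ 0 - SSe (obs μ ω) / (((m:ℝ) - 1) * (n - 1)),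
      ((l1 n θ - SS1 (obs μ ω) / ((m:ℝ) - 1)) -
        (θ 0 - SSe (obs μ ω) / (((m:ℝ) - 1) * (n - 1)))) / n,
      ((l2 m θ - SS2 (obs μ ω) / ((n:ℝ) - 1)) -
        (θ 0 - SSe (obs μ ω) / (((m:ℝ) - 1) * (n - 1)))) / m] := by
  have hu := A_unit hm hn hF hθ μ
  have hm0 : 0 < m := by omega
  have hn0 : 0 < n := by omega
  have hm1 : (0:ℝ) < (m:ℝ) - 1 := by
    have : (2:ℝ) ≤ m := by exact_mod_cast hm
    linarith
  have hn1 : (0:ℝ) < (n:ℝ) - 1 := by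
    have : (2:ℝ) ≤ n := by exact_mod_cast hn
    linarith
  have hm' : (0:ℝ) < m := by linarith
  have hn' : (0:ℝ) < n := by linarith
  have h0 := hθ 0
  have p1 := l1_pos (n := n) hθ
  have p2 := l2_pos (m := m) hθ
  set x : Fin 3 → ℝ := ![θ 0 - SSe (obs μ ω) / (((m:ℝ) - 1) * (n - 1)),
      ((l1 n θ - SS1 (obs μ ω) / ((m:ℝ) - 1)) -
        (θ 0 - SSe (obs μ ω) / (((m:ℝ) - 1) * (n - 1)))) / n,
      ((l2 m θ - SS2 (obs μ ω) / ((n:ℝ) - 1)) -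
        (θ 0 - SSe (obs μ ω) / (((m:ℝ) - 1) * (n - 1)))) / m] with hx
  have key : A m n F μ θ *ᵥ x = bvec (obs μ ω) θ := by
    rw [(A_eq hm hn hF hθ μ).2]
    funext k
    simp only [Matrix.mulVec, dotProduct, Fin.sum_univ_three]
    fin_cases k
    · change _ = pd 0 (reml (obs μ ω)) θ
      rw [reml_pd0 hm0 hn0 _ hθ]
      simp [hx, ph]
      field_simp
      ring
    · change _ = pd 1 (reml (obs μ ω)) θ
      rw [reml_pd1 hm0 hn0 _ hθ]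
      simp [hx, ph]
      field_simp
      ring
    · change _ = pd 2 (reml (obs μ ω)) θ
      rw [reml_pd2 hm0 hn0 _ hθ]
      simp [hx, ph]
      field_simp
      ring
  rw [← key, Matrix.mulVec_mulVec, Matrix.nonsing_inv_mul _ hu, Matrix.one_mulVec]

/-- centred error variance -/
noncomputable def De (m n : ℕ) (θ : Par) (ω : Ix m n → ℝ) : ℝ :=
  (∑ p, res ω p ^ 2) / (((m:ℝ) - 1) * (n - 1)) - θ 0
/-- relative error -/
noncomputable def D1 (m n : ℕ) (θ : Par) (ω : Ix m n → ℝ) : ℝ :=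
  (n * ∑ i, rho ω i ^ 2) / (((m:ℝ) - 1) * l1 n θ) - 1
/-- relative error -/
noncomputable def D2 (m n : ℕ) (θ : Par) (ω : Ix m n → ℝ) : ℝ :=
  (m * ∑ j, gam ω j ^ 2) / (((n:ℝ) - 1) * l2 m θ) - 1

lemma hAb_eq (a0 : ℝ) (a1 : Fin m → ℝ) (a2 : Fin n → ℝ) (ω : Ix m n → ℝ) :
    hAb F μ θ a0 a1 a2 ω =
      (L (cX1 n a1) ω / l1 n θ) * (De m n θ ω - θ 0 * D1 m n θ ω) +
      (L (cX2 m a2) ω / l2 m θ) * (De m n θ ω - θ 0 * D2 m n θ ω) := by
  have hm0 : 0 < m := by omega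
  have hn0 : 0 < n := by omega
  have hm1 : (0:ℝ) < (m:ℝ) - 1 := by
    have : (2:ℝ) ≤ m := by exact_mod_cast hm
    linarith
  have hn1 : (0:ℝ) < (n:ℝ) - 1 := by
    have : (2:ℝ) ≤ n := by exact_mod_cast hn
    linarith
  have hm' : (0:ℝ) < m := by linarith
  have hn' : (0:ℝ) < n := by linarith
  have h0 := hθ 0
  have p1 := l1_pos (n := n) hθ
  have p2 := l2_pos (m := m) hθ
  unfold hAb
  rw [Ainv_b hm hn hF hθ μ ω]
  simp only [dotProduct, Fin.sum_univ_three]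
  rw [hv0 hm0 hn0 _ _ _ _ hθ, hv1 hm0 hn0 _ _ _ _ hθ, hv2 hm0 hn0 _ _ _ _ hθ,
    X1_obs hm0 hn0, X2_obs hm0 hn0, X1_lin hm0 hn0, X2_lin hm0 hn0, SSe_obs hm0 hn0,
    SS1_obs hm0 hn0, SS2_obs hm0 hn0]
  simp only [Matrix.cons_val_zero, Matrix.cons_val_one, Matrix.cons_val]
  unfold De D1 D2
  field_simp
  ring

end

end Pool.Agent.R999.Rem
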