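import Pool.Agent.R999.Rem.Res

set_option autoImplicit false

open MeasureTheory ProbabilityTheory Filter Topology

namespace Pool.Agent.R999.Rem

variable {m n : ℕ}

/-- the type of a basic variable -/
def kk : Ix m n → Fin 3 := Sum.elim (fun _ => 1) (Sum.elim (fun _ => 2) (fun _ => 0))

lemma law_eq (F : Fin 3 → Measure ℝ) : law m n F = Measure.pi (fun s => F (kk s)) := by
  unfold law
  congr 1
  funext s
  rcases s with i | j | p <;> rfl

lemma L_eq (c : Ix m n → ℝ) (ω : Ix m n → ℝ) : L c ω = ∑ i, c (Sum.inl i) * uu ω i +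
    (∑ j, c (Sum.inr (Sum.inl j)) * vv ω j + ∑ p, c (Sum.inr (Sum.inr p)) * ee ω p) := by
  unfold L
  rw [Fintype.sum_sum_type, Fintype.sum_sum_type]
  rfl

lemma sum_kk (c : Ix m n → ℝ) (θ : Par) : ∑ s, c s ^ 2 * θ (kk s) =
    (∑ i, c (Sum.inl i) ^ 2) * θ 1 + ((∑ j, c (Sum.inr (Sum.inl j)) ^ 2) * θ 2 +
      (∑ p, c (Sum.inr (Sum.inr p)) ^ 2) * θ 0) := by
  rw [Fintype.sum_sum_type, Fintype.sum_sum_type, Finset.sum_mul, Finset.sum_mul, Finset.sum_mul]
  rfl

lemma sum_kk1 (c : Ix m n → ℝ) : ∑ s, c s ^ 2 =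
    (∑ i, c (Sum.inl i) ^ 2) + ((∑ j, c (Sum.inr (Sum.inl j)) ^ 2) +
      (∑ p, c (Sum.inr (Sum.inr p)) ^ 2)) := by
  rw [Fintype.sum_sum_type, Fintype.sum_sum_type]

/-- coefficients -/
def cP (p : Obs m n) : Ix m n → ℝ := Sum.elim (fun i => if i = p.1 then 1 else 0)
  (Sum.elim (fun j => if j = p.2 then 1 else 0) (fun q => if q = p then 1 else 0))
/-- coefficients -/
def cR (i : Fin m) : Ix m n → ℝ := Sum.elim (fun i' => if i' = i then (n:ℝ) else 0)
  (Sum.elim (fun _ => 1) (fun q => if q.1 = i then 1 else 0))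
/-- coefficients -/
def cC (j : Fin n) : Ix m n → ℝ := Sum.elim (fun _ => 1)
  (Sum.elim (fun j' => if j' = j then (m:ℝ) else 0) (fun q => if q.2 = j then 1 else 0))
/-- coefficients -/
def cT : Ix m n → ℝ := Sum.elim (fun _ => (n:ℝ)) (Sum.elim (fun _ => (m:ℝ)) (fun _ => 1))

lemma sum_row (f : Obs m n → ℝ) (i : Fin m) :
    ∑ q : Obs m n, (if q.1 = i then f q else 0) = ∑ j, f (i, j) := by
  rw [Fintype.sum_prod_type]
  simp only
  rw [Finset.sum_eq_single i]
  · simp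
  · intro b _ hb; simp [hb]
  · simp

lemma sum_col (f : Obs m n → ℝ) (j : Fin n) :
    ∑ q : Obs m n, (if q.2 = j then f q else 0) = ∑ i, f (i, j) := by
  rw [Fintype.sum_prod_type_right]
  simp only
  rw [Finset.sum_eq_single j]
  · simp
  · intro b _ hb; simp [hb]
  · simp

lemma P_lin (p : Obs m n) (ω : Ix m n → ℝ) : obs 0 ω p = L (cP p) ω := by
  rw [L_eq]
  have ho : obs 0 ω p = 0 + uu ω p.1 + vv ω p.2 + ee ω p := rfl
  rw [ho]
  simp only [cP, Sum.elim_inl, Sum.elim_inr, ite_mul, one_mul, zero_mul, Finset.sum_ite_eq',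
    Finset.mem_univ, if_true]
  ring

lemma R_lin (i : Fin m) (ω : Ix m n → ℝ) : Rs (obs 0 ω) i = L (cR i) ω := by
  rw [L_eq, Rs_obs]
  simp only [cR, Sum.elim_inl, Sum.elim_inr, ite_mul, one_mul, zero_mul, Finset.sum_ite_eq',
    Finset.mem_univ, if_true, sum_row]
  unfold Rs
  ring

lemma C_lin (j : Fin n) (ω : Ix m n → ℝ) : Cs (obs 0 ω) j = L (cC j) ω := by
  rw [L_eq, Cs_obs]
  simp only [cC, Sum.elim_inl, Sum.elim_inr, ite_mul, one_mul, zero_mul, Finset.sum_ite_eq',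
    Finset.mem_univ, if_true, sum_col]
  unfold Cs
  ring

lemma T_lin (ω : Ix m n → ℝ) : Ts (obs 0 ω) = L cT ω := by
  rw [L_eq, Ts_obs]
  simp only [cT, Sum.elim_inl, Sum.elim_inr, one_mul, ← Finset.mul_sum]
  unfold Ts
  ring

lemma P_sq (p : Obs m n) (θ : Par) : ∑ s, cP p s ^ 2 * θ (kk s) = θ 0 + θ 1 + θ 2 := by
  rw [sum_kk]
  simp only [cP, Sum.elim_inl, Sum.elim_inr, ite_pow, one_pow, ne_eq, OfNat.ofNat_ne_zero,
    not_false_eq_true, zero_pow, Finset.sum_ite_eq', Finset.mem_univ, if_true]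
  ring

lemma R_sq (i : Fin m) (θ : Par) :
    ∑ s, cR (n := n) i s ^ 2 * θ (kk s) = n ^ 2 * θ 1 + n * θ 2 + n * θ 0 := by
  rw [sum_kk]
  simp only [cR, Sum.elim_inl, Sum.elim_inr, ite_pow, one_pow, ne_eq, OfNat.ofNat_ne_zero,
    not_false_eq_true, zero_pow, Finset.sum_ite_eq', Finset.mem_univ, if_true, sum_row,
    Finset.sum_const, Finset.card_univ, Fintype.card_fin, nsmul_eq_mul]
  ring

lemma C_sq (j : Fin n) (θ : Par) :
    ∑ s, cC (m := m) j s ^ 2 * θ (kk s) = m * θ 1 + m ^ 2 * θ 2 + m * θ 0 := by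
  rw [sum_kk]
  simp only [cC, Sum.elim_inl, Sum.elim_inr, ite_pow, one_pow, ne_eq, OfNat.ofNat_ne_zero,
    not_false_eq_true, zero_pow, Finset.sum_ite_eq', Finset.mem_univ, if_true, sum_col,
    Finset.sum_const, Finset.card_univ, Fintype.card_fin, nsmul_eq_mul]
  ring

lemma T_sq (θ : Par) : ∑ s, cT (m := m) (n := n) s ^ 2 * θ (kk s) =
    m * n ^ 2 * θ 1 + n * m ^ 2 * θ 2 + m * n * θ 0 := by
  rw [sum_kk]
  simp only [cT, Sum.elim_inl, Sum.elim_inr, one_pow, 
    Finset.sum_const, Finset.card_univ, Fintype.card_fin, nsmul_eq_mul, Fintype.card_prod]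
  push_cast
  ring

/-! ### contrasts as linear forms -/

lemma sum_sub_mean_sq {k : ℕ} (hk : 0 < k) (a : Fin k → ℝ) :
    ∑ i, (a i - (∑ i, a i) / k) ^ 2 ≤ ∑ i, a i ^ 2 := by
  have hk' : (0:ℝ) < k := by exact_mod_cast hk
  set A := ∑ i, a i with hA
  have e : ∀ i, (a i - A / k) ^ 2 = a i ^ 2 - a i * (2 * A / k) + (A / k) ^ 2 := by intro i; ring
  simp_rw [e]
  rw [Finset.sum_add_distrib, Finset.sum_sub_distrib, ← Finset.sum_mul, ← hA, Finset.sum_const,
    Finset.card_univ, Fintype.card_fin, nsmul_eq_mul]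
  have : A * (2 * A / k) = 2 * (k * (A / k) ^ 2) := by field_simp
  rw [this]
  have : 0 ≤ (k:ℝ) * (A / k) ^ 2 := by positivity
  linarith

/-- coefficients -/
noncomputable def cX1 (n : ℕ) (a : Fin m → ℝ) : Ix m n → ℝ := Sum.elim (fun i => a i - (∑ i, a i) / m)
  (Sum.elim (fun _ => 0) (fun p => (a p.1 - (∑ i, a i) / m) / n))
/-- coefficients -/
noncomputable def cX2 (m : ℕ) (a : Fin n → ℝ) : Ix m n → ℝ := Sum.elim (fun _ => 0)
  (Sum.elim (fun i => a i - (∑ i, a i) / n) (fun p => (a p.2 - (∑ i, a i) / n) / m))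

lemma X1_lin (hm : 0 < m) (hn : 0 < n) (a : Fin m → ℝ) (ω : Ix m n → ℝ) :
    ∑ i, a i * rho ω i = L (cX1 n a) ω := by
  have hm' : (0:ℝ) < m := by exact_mod_cast hm
  have hn' : (0:ℝ) < n := by exact_mod_cast hn
  rw [L_eq]
  set A := ∑ i, a i with hA
  simp only [cX1, Sum.elim_inl, Sum.elim_inr, zero_mul, Finset.sum_const_zero, zero_add, ← hA]
  have e1 : ∑ i, (a i - A / m) * uu ω i = ∑ i, a i * uu ω i - A * ((∑ i, uu ω i) / m) := by
    simp only [sub_mul, Finset.sum_sub_distrib, ← Finset.mul_sum]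
    ring
  have e2 : ∑ p : Obs m n, (a p.1 - A / m) / n * ee ω p =
      ∑ i, a i * (Rs (ee ω) i / n) - A * (Ts (ee ω) / (m * n)) := by
    rw [Fintype.sum_prod_type]
    have : ∀ i, ∑ j, (a (i, j).1 - A / m) / n * ee ω (i, j) =
        a i * (Rs (ee ω) i / n) - A / m / n * Rs (ee ω) i := by
      intro i
      simp only
      rw [← Finset.mul_sum]
      change _ * Rs (ee ω) i = _
      ring
    simp_rw [this]
    rw [Finset.sum_sub_distrib, ← Finset.mul_sum, sum_Rs]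
    field_simp
  rw [e1, e2]
  have e3 : ∀ i, a i * rho ω i = a i * uu ω i - a i * ((∑ i, uu ω i) / m) +
      a i * (Rs (ee ω) i / n) - a i * (Ts (ee ω) / (m * n)) := by
    intro i; unfold rho; ring
  simp_rw [e3]
  rw [Finset.sum_sub_distrib, Finset.sum_add_distrib, Finset.sum_sub_distrib, ← Finset.sum_mul,
    ← Finset.sum_mul]
  ring

lemma X2_lin (hm : 0 < m) (hn : 0 < n) (a : Fin n → ℝ) (ω : Ix m n → ℝ) :
    ∑ j, a j * gam ω j = L (cX2 m a) ω := by
  have hm' : (0:ℝ) < m := by exact_mod_cast hm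
  have hn' : (0:ℝ) < n := by exact_mod_cast hn
  rw [L_eq]
  set A := ∑ i, a i with hA
  simp only [cX2, Sum.elim_inl, Sum.elim_inr, zero_mul, Finset.sum_const_zero, zero_add, ← hA]
  have e1 : ∑ i, (a i - A / n) * vv ω i = ∑ i, a i * vv ω i - A * ((∑ i, vv ω i) / n) := by
    simp only [sub_mul, Finset.sum_sub_distrib, ← Finset.mul_sum]
    ring
  have e2 : ∑ p : Obs m n, (a p.2 - A / n) / m * ee ω p =
      ∑ i, a i * (Cs (ee ω) i / m) - A * (Ts (ee ω) / (m * n)) := by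
    rw [Fintype.sum_prod_type_right]
    have : ∀ j, ∑ i, (a (i, j).2 - A / n) / m * ee ω (i, j) =
        a j * (Cs (ee ω) j / m) - A / n / m * Cs (ee ω) j := by
      intro i
      simp only
      rw [← Finset.mul_sum]
      change _ * Cs (ee ω) i = _
      ring
    simp_rw [this]
    rw [Finset.sum_sub_distrib, ← Finset.mul_sum, sum_Cs]
    field_simp
  rw [e1, e2]
  have e3 : ∀ i, a i * gam ω i = a i * vv ω i - a i * ((∑ i, vv ω i) / n) +
      a i * (Cs (ee ω) i / m) - a i * (Ts (ee ω) / (m * n)) := by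
    intro i; unfold gam; ring
  simp_rw [e3]
  rw [Finset.sum_sub_distrib, Finset.sum_add_distrib, Finset.sum_sub_distrib, ← Finset.sum_mul,
    ← Finset.sum_mul]
  ring

lemma X1_sq (hm : 0 < m) (hn : 0 < n) (a : Fin m → ℝ) :
    ∑ s, cX1 n a s ^ 2 ≤ 2 * ∑ i, a i ^ 2 := by
  have hn' : (1:ℝ) ≤ n := by exact_mod_cast hn
  rw [sum_kk1]
  simp only [cX1, Sum.elim_inl, Sum.elim_inr, ne_eq, OfNat.ofNat_ne_zero,
    not_false_eq_true, zero_pow, Finset.sum_const_zero, zero_add]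
  rw [Fintype.sum_prod_type]
  simp only [Finset.sum_const, Finset.card_univ, Fintype.card_fin, nsmul_eq_mul]
  set A := (∑ i, a i) / m
  have e : ∀ i, (n:ℝ) * ((a i - A) / n) ^ 2 ≤ (a i - A) ^ 2 := by
    intro i
    have : (n:ℝ) * ((a i - A) / n) ^ 2 = (a i - A) ^ 2 / n := by field_simp
    rw [this]
    exact div_le_self (sq_nonneg _) hn'
  have h1 := Finset.sum_le_sum fun i (_ : i ∈ Finset.univ) => e i
  have h2 := sum_sub_mean_sq hm a
  linarith

lemma X2_sq (hm : 0 < m) (hn : 0 < n) (a : Fin n → ℝ) :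
    ∑ s, cX2 m a s ^ 2 ≤ 2 * ∑ i, a i ^ 2 := by
  have hm' : (1:ℝ) ≤ m := by exact_mod_cast hm
  rw [sum_kk1]
  simp only [cX2, Sum.elim_inl, Sum.elim_inr, ne_eq, OfNat.ofNat_ne_zero,
    not_false_eq_true, zero_pow, Finset.sum_const_zero, zero_add]
  rw [Fintype.sum_prod_type_right]
  simp only [Finset.sum_const, Finset.card_univ, Fintype.card_fin, nsmul_eq_mul]
  set A := (∑ i, a i) / n
  have e : ∀ i, (m:ℝ) * ((a i - A) / m) ^ 2 ≤ (a i - A) ^ 2 := by
    intro i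
    have : (m:ℝ) * ((a i - A) / m) ^ 2 = (a i - A) ^ 2 / m := by field_simp
    rw [this]
    exact div_le_self (sq_nonneg _) hm'
  have h1 := Finset.sum_le_sum fun i (_ : i ∈ Finset.univ) => e i
  have h2 := sum_sub_mean_sq hn a
  linarith

/-! ### the moment hypotheses for the law of the data -/

/-- bound for the variances -/
noncomputable def tau (θ : Par) : ℝ := θ 0 + θ 1 + θ 2
/-- bound for the fourth moments -/
noncomputable def K4 (θ κ : Par) : ℝ := κ 0 + κ 1 + κ 2 + tau θ ^ 2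
/-- bound for the eighth moments -/
noncomputable def K8 (F : Fin 3 → Measure ℝ) : ℝ := ∑ k, ∫ x, x ^ 8 ∂(F k)

lemma momH {F : Fin 3 → Measure ℝ} {θ κ : Par} (hF : Laws F θ κ) :
    MomH (S := Ix m n) (fun s => F (kk s)) (fun s => θ (kk s)) (tau θ) (K4 θ κ) (K8 F) := by
  have hθ : ∀ k, 0 ≤ θ k := fun k => by
    rw [← hF.var k]; exact integral_nonneg fun x => by positivity
  have hκ : ∀ k, 0 ≤ κ k := fun k => by
    rw [← hF.fourth k]; exact integral_nonneg fun x => by positivity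
  refine ⟨fun s => hF.prob _, fun s => hF.eighth _, fun s => hF.mean _, fun s => hF.var _,
    fun s => hθ _, fun s => ?_, fun s => ?_, ?_, fun s => ?_⟩
  · have h0 := hθ 0
    have h1 := hθ 1
    have h2 := hθ 2
    unfold tau
    generalize kk s = k
    fin_cases k
    · change θ 0 ≤ _; linarith
    · change θ 1 ≤ _; linarith
    · change θ 2 ≤ _; linarith
  · rw [hF.fourth]
    have h0 := hκ 0
    have h1 := hκ 1
    have h2 := hκ 2
    have h3 := sq_nonneg (tau θ)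
    unfold K4
    generalize kk s = k
    fin_cases k
    · change κ 0 ≤ _; linarith
    · change κ 1 ≤ _; linarith
    · change κ 2 ≤ _; linarith
  · unfold K4
    have h0 := hκ 0
    have h1 := hκ 1
    have h2 := hκ 2
    linarith
  · unfold K8
    exact Finset.single_le_sum (f := fun k => ∫ x, x ^ 8 ∂(F k))
      (fun k _ => integral_nonneg fun x => by positivity) (Finset.mem_univ (kk s))

lemma K8_nonneg (F : Fin 3 → Measure ℝ) : 0 ≤ K8 F :=
  Finset.sum_nonneg fun k _ => integral_nonneg fun x => by positivity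

section
variable (hm : 0 < m) (hn : 0 < n) {F : Fin 3 → Measure ℝ} {θ κ : Par} (hF : Laws F θ κ) (μ : ℝ)
include hF

lemma L_sq_int (c : Ix m n → ℝ) : Integrable (fun ω => L c ω ^ 2) (law m n F) := by
  rw [law_eq]
  exact (momH hF).L_int c (by norm_num)

lemma E_L_sq (c : Ix m n → ℝ) : ∫ ω, L c ω ^ 2 ∂(law m n F) = ∑ s, c s ^ 2 * θ (kk s) := by
  rw [law_eq]
  exact (momH hF).L2 c

include hm hn

lemma SS1_int : Integrable (fun ω => SS1 (obs μ ω)) (law m n F) ∧
    ∫ ω, SS1 (obs μ ω) ∂(law m n F) = ((m:ℝ) - 1) * l1 n θ := by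
  have hm' : (0:ℝ) < m := by exact_mod_cast hm
  have hn' : (0:ℝ) < n := by exact_mod_cast hn
  have e : ∀ ω : Ix m n → ℝ, SS1 (obs μ ω) = (∑ i, L (cR i) ω ^ 2) / n - L cT ω ^ 2 / (m * n) := by
    intro ω
    rw [SS1_obs hm hn, ← SS1_obs hm hn 0]
    unfold SS1
    simp_rw [R_lin, T_lin]
  simp_rw [e]
  have i1 : Integrable (fun ω => (∑ i, L (cR (m := m) (n := n) i) ω ^ 2) / (n:ℝ)) (law m n F) :=
    (integrable_finsetSum _ fun i _ => L_sq_int hF _).div_const _
  have i2 : Integrable (fun ω => L (cT (m := m) (n := n)) ω ^ 2 / ((m:ℝ) * n)) (law m n F) :=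
    (L_sq_int hF _).div_const _
  refine ⟨i1.sub i2, ?_⟩
  rw [integral_sub i1 i2, integral_div, integral_div, integral_finsetSum _ fun i _ => L_sq_int hF _,
    E_L_sq hF]
  simp_rw [E_L_sq hF, R_sq]
  rw [T_sq, Finset.sum_const, Finset.card_univ, Fintype.card_fin, nsmul_eq_mul]
  unfold l1
  field_simp
  ring

lemma SS2_int : Integrable (fun ω => SS2 (obs μ ω)) (law m n F) ∧
    ∫ ω, SS2 (obs μ ω) ∂(law m n F) = ((n:ℝ) - 1) * l2 m θ := by
  have hm' : (0:ℝ) < m := by exact_mod_cast hm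
  have hn' : (0:ℝ) < n := by exact_mod_cast hn
  have e : ∀ ω : Ix m n → ℝ, SS2 (obs μ ω) = (∑ i, L (cC i) ω ^ 2) / m - L cT ω ^ 2 / (m * n) := by
    intro ω
    rw [SS2_obs hm hn, ← SS2_obs hm hn 0]
    unfold SS2
    simp_rw [C_lin, T_lin]
  simp_rw [e]
  have i1 : Integrable (fun ω => (∑ i, L (cC (m := m) (n := n) i) ω ^ 2) / (m:ℝ)) (law m n F) :=
    (integrable_finsetSum _ fun i _ => L_sq_int hF _).div_const _
  have i2 : Integrable (fun ω => L (cT (m := m) (n := n)) ω ^ 2 / ((m:ℝ) * n)) (law m n F) :=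
    (L_sq_int hF _).div_const _
  refine ⟨i1.sub i2, ?_⟩
  rw [integral_sub i1 i2, integral_div, integral_div, integral_finsetSum _ fun i _ => L_sq_int hF _,
    E_L_sq hF]
  simp_rw [E_L_sq hF, C_sq]
  rw [T_sq, Finset.sum_const, Finset.card_univ, Fintype.card_fin, nsmul_eq_mul]
  unfold l2
  field_simp
  ring

lemma SSe_int : Integrable (fun ω => SSe (obs μ ω)) (law m n F) ∧
    ∫ ω, SSe (obs μ ω) ∂(law m n F) = ((m:ℝ) - 1) * (n - 1) * θ 0 := by
  have hm' : (0:ℝ) < m := by exact_mod_cast hm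
  have hn' : (0:ℝ) < n := by exact_mod_cast hn
  have e : ∀ ω : Ix m n → ℝ, SSe (obs μ ω) = (∑ p, L (cP p) ω ^ 2) - (∑ i, L (cR i) ω ^ 2) / n -
      (∑ i, L (cC i) ω ^ 2) / m + L cT ω ^ 2 / (m * n) := by
    intro ω
    rw [SSe_obs hm hn, ← SSe_obs hm hn 0]
    unfold SSe
    simp_rw [P_lin, R_lin, C_lin, T_lin]
  simp_rw [e]
  have i0 : Integrable (fun ω => (∑ p, L (cP (m := m) (n := n) p) ω ^ 2)) (law m n F) :=
    (integrable_finsetSum _ fun i _ => L_sq_int hF _)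
  have i1 : Integrable (fun ω => (∑ i, L (cR (m := m) (n := n) i) ω ^ 2) / (n:ℝ)) (law m n F) :=
    (integrable_finsetSum _ fun i _ => L_sq_int hF _).div_const _
  have i2 : Integrable (fun ω => (∑ i, L (cC (m := m) (n := n) i) ω ^ 2) / (m:ℝ)) (law m n F) :=
    (integrable_finsetSum _ fun i _ => L_sq_int hF _).div_const _
  have i3 : Integrable (fun ω => L (cT (m := m) (n := n)) ω ^ 2 / ((m:ℝ) * n)) (law m n F) :=
    (L_sq_int hF _).div_const _
  refine ⟨((i0.sub i1).sub i2).add i3, ?_⟩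
  have i01 : Integrable (fun ω => (∑ p, L (cP (m := m) (n := n) p) ω ^ 2) -
    (∑ i, L (cR (m := m) (n := n) i) ω ^ 2) / (n:ℝ)) (law m n F) := i0.sub i1
  have i012 : Integrable (fun ω => (∑ p, L (cP (m := m) (n := n) p) ω ^ 2) -
    (∑ i, L (cR (m := m) (n := n) i) ω ^ 2) / (n:ℝ) -
    (∑ i, L (cC (m := m) (n := n) i) ω ^ 2) / (m:ℝ)) (law m n F) := i01.sub i2
  rw [integral_add i012 i3, integral_sub i01 i2, integral_sub i0 i1, integral_div, integral_div,
    integral_div, integral_finsetSum _ fun i _ => L_sq_int hF _,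
    integral_finsetSum _ fun i _ => L_sq_int hF _, integral_finsetSum _ fun i _ => L_sq_int hF _,
    E_L_sq hF]
  simp_rw [E_L_sq hF, C_sq, R_sq, P_sq]
  rw [T_sq, Finset.sum_const, Finset.sum_const, Finset.sum_const, Finset.card_univ,
    Finset.card_univ, Finset.card_univ, Fintype.card_fin, Fintype.card_fin, Fintype.card_prod,
    Fintype.card_fin, Fintype.card_fin, nsmul_eq_mul, nsmul_eq_mul, nsmul_eq_mul]
  push_cast
  field_simp
  ring

end

end Pool.Agent.R999.Rem
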