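import Pool.Agent.R999.Rem.Fin

set_option autoImplicit false

open MeasureTheory ProbabilityTheory Filter Topology Matrix

namespace Pool.Agent.R999.Rem

variable {m n : ℕ}

lemma sub_pow_four_le {a b : ℝ} (ha : 0 ≤ a) (hb : 0 ≤ b) : (a - b) ^ 4 ≤ a ^ 4 + b ^ 4 := by
  rcases le_total a b with h | h
  · have h1 : (a - b) ^ 4 = (b - a) ^ 4 := by ring
    have h2 : (b - a) ^ 4 ≤ b ^ 4 := pow_le_pow_left₀ (by linarith) (by linarith) 4
    have h3 : 0 ≤ a ^ 4 := by positivity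
    linarith
  · have h2 : (a - b) ^ 4 ≤ a ^ 4 := pow_le_pow_left₀ (by linarith) (by linarith) 4
    have h3 : 0 ≤ b ^ 4 := by positivity
    linarith

/-- bounded fourth moment -/
def B4 (P : Measure (Ix m n → ℝ)) (f : (Ix m n → ℝ) → ℝ) (B : ℝ) : Prop :=
  Integrable (fun ω => f ω ^ 4) P ∧ ∫ ω, f ω ^ 4 ∂P ≤ B

lemma B4.of_le {P : Measure (Ix m n → ℝ)} {f g : (Ix m n → ℝ) → ℝ} {B' : ℝ}
    (hf : Continuous f) (hg : Integrable g P) (hgB : ∫ ω, g ω ∂P ≤ B')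
    (h : ∀ ω, f ω ^ 4 ≤ g ω) : B4 P f B' := by
  have hI : Integrable (fun ω => f ω ^ 4) P := by
    refine Integrable.mono' hg (hf.pow 4).aestronglyMeasurable ?_
    filter_upwards with ω
    rw [Real.norm_of_nonneg (by positivity)]
    exact h ω
  exact ⟨hI, (integral_mono hI hg h).trans hgB⟩

lemma res_cont (p : Obs m n) : Continuous (fun ω : Ix m n → ℝ => res ω p) := by
  unfold res ee Rs Cs Ts; fun_prop
lemma rho_cont (i : Fin m) : Continuous (fun ω : Ix m n → ℝ => rho ω i) := by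
  unfold rho uu ee Rs Ts; fun_prop
lemma gam_cont (j : Fin n) : Continuous (fun ω : Ix m n → ℝ => gam ω j) := by
  unfold gam vv ee Cs Ts; fun_prop

section
variable (hm : 2 ≤ m) (hn : 2 ≤ n) {F : Fin 3 → Measure ℝ} {θ κ : Par} (hF : Laws F θ κ)
  (hθ : Pos θ)
include hF hm hn hθ

lemma De_B4 : B4 (law m n F) (De m n θ) (64 ^ 4 * K8 F + θ 0 ^ 4) := by
  have := law_prob (m := m) (n := n) hF
  have hm1 : (0:ℝ) < (m:ℝ) - 1 := by
    have : (2:ℝ) ≤ m := by exact_mod_cast hm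
    linarith
  have hn1 : (0:ℝ) < (n:ℝ) - 1 := by
    have : (2:ℝ) ≤ n := by exact_mod_cast hn
    linarith
  have hm2 : (m:ℝ) ≤ 2 * (m - 1) := by
    have : (2:ℝ) ≤ m := by exact_mod_cast hm
    linarith
  have hn2 : (n:ℝ) ≤ 2 * (n - 1) := by
    have : (2:ℝ) ≤ n := by exact_mod_cast hn
    linarith
  have hm' : (0:ℝ) < m := by linarith
  have hn' : (0:ℝ) < n := by linarith
  have h0 := hθ 0
  obtain ⟨i1, b1⟩ := C8.quad (fun p : Obs m n => res8 hm hn hF p) (c := m * n) (by simp)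
    (by positivity)
  refine B4.of_le (g := fun ω => 64 ^ 4 * ((∑ p, (res ω p / 4) ^ 2) / (m * n)) ^ 4 +
    θ 0 ^ 4) ?_ ((i1.const_mul _).add (integrable_const _)) ?_ ?_
  · unfold De
    have := fun p : Obs m n => res_cont p
    fun_prop
  · rw [integral_add (i1.const_mul _) (integrable_const _), integral_const_mul]
    simp only [integral_const, probReal_univ, smul_eq_mul, one_mul]
    have := mul_le_mul_of_nonneg_left b1 (show (0:ℝ) ≤ 64 ^ 4 by norm_num)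
    linarith
  · intro ω
    have hs : 0 ≤ ∑ p, res ω p ^ 2 := Finset.sum_nonneg fun p _ => sq_nonneg _
    have e1 : (∑ p, (res ω p / 4) ^ 2) / (m * n) = (∑ p, res ω p ^ 2) / (16 * (m * n)) := by
      have : ∀ p : Obs m n, (res ω p / 4) ^ 2 = res ω p ^ 2 * (1 / 16) := fun p => by ring
      simp_rw [this]
      rw [← Finset.sum_mul]
      field_simp
    rw [e1]
    have e2 : (∑ p, res ω p ^ 2) / (((m:ℝ) - 1) * (n - 1)) ≤
        64 * ((∑ p, res ω p ^ 2) / (16 * (m * n))) := by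
      rw [div_le_iff₀ (by positivity)]
      have : 64 * ((∑ p, res ω p ^ 2) / (16 * (m * n))) * (((m:ℝ) - 1) * (n - 1)) =
          (∑ p, res ω p ^ 2) * ((2 * (m - 1)) * (2 * (n - 1)) / (m * n)) := by
        field_simp; ring
      rw [this]
      refine le_mul_of_one_le_right hs ?_
      rw [one_le_div (by positivity)]
      exact mul_le_mul hm2 hn2 hn'.le (by linarith)
    have e3 : De m n θ ω ^ 4 ≤ ((∑ p, res ω p ^ 2) / (((m:ℝ) - 1) * (n - 1))) ^ 4 + θ 0 ^ 4 :=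
      sub_pow_four_le (by positivity) h0.le
    have e4 : ((∑ p, res ω p ^ 2) / (((m:ℝ) - 1) * (n - 1))) ^ 4 ≤
        (64 * ((∑ p, res ω p ^ 2) / (16 * (m * n)))) ^ 4 :=
      pow_le_pow_left₀ (by positivity) e2 4
    rw [mul_pow] at e4
    linarith

lemma D1_B4 : B4 (law m n F) (D1 m n θ) ((32 / θ 1) ^ 4 * K8 F + 1) := by
  have := law_prob (m := m) (n := n) hF
  have hm1 : (0:ℝ) < (m:ℝ) - 1 := by
    have : (2:ℝ) ≤ m := by exact_mod_cast hm
    linarith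
  have hm2 : (m:ℝ) ≤ 2 * (m - 1) := by
    have : (2:ℝ) ≤ m := by exact_mod_cast hm
    linarith
  have hn1 : (0:ℝ) < (n:ℝ) - 1 := by
    have : (2:ℝ) ≤ n := by exact_mod_cast hn
    linarith
  have hm' : (0:ℝ) < m := by linarith
  have hn' : (0:ℝ) < n := by linarith
  have h0 := hθ 0
  have h1 := hθ 1
  have p1 := l1_pos (n := n) hθ
  have p1' : n * θ 1 ≤ l1 n θ := by unfold l1; linarith
  obtain ⟨i1, b1⟩ := C8.quad (fun i : Fin m => rho8 hm hn hF i) (c := m) (by simp) hm'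
  refine B4.of_le (g := fun ω => (32 / θ 1) ^ 4 * ((∑ i, (rho ω i / 4) ^ 2) / m) ^ 4 +
    1) ?_ ((i1.const_mul _).add (integrable_const _)) ?_ ?_
  · unfold D1
    have := fun i : Fin m => rho_cont (n := n) i
    fun_prop
  · rw [integral_add (i1.const_mul _) (integrable_const _), integral_const_mul]
    simp only [integral_const, probReal_univ, smul_eq_mul, one_mul]
    have := mul_le_mul_of_nonneg_left b1 (show (0:ℝ) ≤ (32 / θ 1) ^ 4 by positivity)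
    linarith
  · intro ω
    have hs : 0 ≤ ∑ i, rho ω i ^ 2 := Finset.sum_nonneg fun p _ => sq_nonneg _
    have e1 : (∑ i, (rho ω i / 4) ^ 2) / m = (∑ i, rho ω i ^ 2) / (16 * m) := by
      have : ∀ i, (rho ω i / 4) ^ 2 = rho ω i ^ 2 * (1 / 16) := fun p => by ring
      simp_rw [this]
      rw [← Finset.sum_mul]
      field_simp
    rw [e1]
    have e2 : (n * ∑ i, rho ω i ^ 2) / (((m:ℝ) - 1) * l1 n θ) ≤
        32 / θ 1 * ((∑ i, rho ω i ^ 2) / (16 * m)) := by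
      rw [div_le_iff₀ (by positivity)]
      have : 32 / θ 1 * ((∑ i, rho ω i ^ 2) / (16 * m)) * (((m:ℝ) - 1) * l1 n θ) =
          (∑ i, rho ω i ^ 2) * ((2 * (m - 1)) * (l1 n θ) / (m * θ 1)) := by
        field_simp; ring
      rw [this, mul_comm (n:ℝ)]
      refine mul_le_mul_of_nonneg_left ?_ hs
      rw [le_div_iff₀ (by positivity)]
      calc (n:ℝ) * (m * θ 1) = m * (n * θ 1) := by ring
        _ ≤ (2 * (m - 1)) * l1 n θ := mul_le_mul hm2 p1' (by positivity) (by linarith)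
    have e3 : D1 m n θ ω ^ 4 ≤ ((n * ∑ i, rho ω i ^ 2) / (((m:ℝ) - 1) * l1 n θ)) ^ 4 + 1 ^ 4 :=
      sub_pow_four_le (by positivity) zero_le_one
    have e4 : ((n * ∑ i, rho ω i ^ 2) / (((m:ℝ) - 1) * l1 n θ)) ^ 4 ≤
        (32 / θ 1 * ((∑ i, rho ω i ^ 2) / (16 * m))) ^ 4 :=
      pow_le_pow_left₀ (by positivity) e2 4
    rw [mul_pow] at e4
    linarith

lemma D2_B4 : B4 (law m n F) (D2 m n θ) ((32 / θ 2) ^ 4 * K8 F + 1) := by
  have := law_prob (m := m) (n := n) hF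
  have hn1 : (0:ℝ) < (n:ℝ) - 1 := by
    have : (2:ℝ) ≤ n := by exact_mod_cast hn
    linarith
  have hn2 : (n:ℝ) ≤ 2 * (n - 1) := by
    have : (2:ℝ) ≤ n := by exact_mod_cast hn
    linarith
  have hm1 : (0:ℝ) < (m:ℝ) - 1 := by
    have : (2:ℝ) ≤ m := by exact_mod_cast hm
    linarith
  have hm' : (0:ℝ) < m := by linarith
  have hn' : (0:ℝ) < n := by linarith
  have h0 := hθ 0
  have h1 := hθ 2
  have p1 := l2_pos (m := m) hθ
  have p1' : m * θ 2 ≤ l2 m θ := by unfold l2; linarith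
  obtain ⟨i1, b1⟩ := C8.quad (fun i : Fin n => gam8 hm hn hF i) (c := n) (by simp) hn'
  refine B4.of_le (g := fun ω => (32 / θ 2) ^ 4 * ((∑ i, (gam ω i / 4) ^ 2) / n) ^ 4 +
    1) ?_ ((i1.const_mul _).add (integrable_const _)) ?_ ?_
  · unfold D2
    have := fun i : Fin n => gam_cont (m := m) i
    fun_prop
  · rw [integral_add (i1.const_mul _) (integrable_const _), integral_const_mul]
    simp only [integral_const, probReal_univ, smul_eq_mul, one_mul]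
    have := mul_le_mul_of_nonneg_left b1 (show (0:ℝ) ≤ (32 / θ 2) ^ 4 by positivity)
    linarith
  · intro ω
    have hs : 0 ≤ ∑ i, gam ω i ^ 2 := Finset.sum_nonneg fun p _ => sq_nonneg _
    have e1 : (∑ i, (gam ω i / 4) ^ 2) / n = (∑ i, gam ω i ^ 2) / (16 * n) := by
      have : ∀ i, (gam ω i / 4) ^ 2 = gam ω i ^ 2 * (1 / 16) := fun p => by ring
      simp_rw [this]
      rw [← Finset.sum_mul]
      field_simp
    rw [e1]
    have e2 : (m * ∑ i, gam ω i ^ 2) / (((n:ℝ) - 1) * l2 m θ) ≤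
        32 / θ 2 * ((∑ i, gam ω i ^ 2) / (16 * n)) := by
      rw [div_le_iff₀ (by positivity)]
      have : 32 / θ 2 * ((∑ i, gam ω i ^ 2) / (16 * n)) * (((n:ℝ) - 1) * l2 m θ) =
          (∑ i, gam ω i ^ 2) * ((2 * (n - 1)) * (l2 m θ) / (n * θ 2)) := by
        field_simp; ring
      rw [this, mul_comm (m:ℝ)]
      refine mul_le_mul_of_nonneg_left ?_ hs
      rw [le_div_iff₀ (by positivity)]
      calc (m:ℝ) * (n * θ 2) = n * (m * θ 2) := by ring
        _ ≤ (2 * (n - 1)) * l2 m θ := mul_le_mul hn2 p1' (by positivity) (by linarith)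
    have e3 : D2 m n θ ω ^ 4 ≤ ((m * ∑ i, gam ω i ^ 2) / (((n:ℝ) - 1) * l2 m θ)) ^ 4 + 1 ^ 4 :=
      sub_pow_four_le (by positivity) zero_le_one
    have e4 : ((m * ∑ i, gam ω i ^ 2) / (((n:ℝ) - 1) * l2 m θ)) ^ 4 ≤
        (32 / θ 2 * ((∑ i, gam ω i ^ 2) / (16 * n))) ^ 4 :=
      pow_le_pow_left₀ (by positivity) e2 4
    rw [mul_pow] at e4
    linarith

end

/-- the constant -/
noncomputable def KX (θ κ : Par) (C : ℝ) : ℝ := 3 * K4 θ κ * (2 * C ^ 2) ^ 2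
/-- the constant -/
noncomputable def KD (F : Fin 3 → Measure ℝ) (θ : Par) (t : ℝ) : ℝ :=
  8 * ((64 ^ 4 * K8 F + θ 0 ^ 4) + θ 0 ^ 4 * ((32 / t) ^ 4 * K8 F + 1))
/-- the constant -/
noncomputable def KK (F : Fin 3 → Measure ℝ) (θ κ : Par) (C : ℝ) : ℝ :=
  (KX θ κ C + KD F θ (θ 1)) / θ 1 ^ 2 + (KX θ κ C + KD F θ (θ 2)) / θ 2 ^ 2

section
variable (hm : 2 ≤ m) (hn : 2 ≤ n) {F : Fin 3 → Measure ℝ} {θ κ : Par} (hF : Laws F θ κ)
  (hθ : Pos θ) (μ : ℝ) {C a0 : ℝ} {a1 : Fin m → ℝ} {a2 : Fin n → ℝ} (hC : CoefBd C a0 a1 a2)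

include hC in
lemma coef_bd : (∑ i, a1 i ^ 2 ≤ C ^ 2) ∧ (∑ i, a2 i ^ 2 ≤ C ^ 2) := by
  unfold CoefBd at hC
  have h0 := abs_nonneg a0
  have h1 := Real.sqrt_nonneg (∑ i, a1 i ^ 2)
  have h2 := Real.sqrt_nonneg (∑ i, a2 i ^ 2)
  have s1 : 0 ≤ ∑ i, a1 i ^ 2 := Finset.sum_nonneg fun i _ => sq_nonneg _
  have s2 : 0 ≤ ∑ i, a2 i ^ 2 := Finset.sum_nonneg fun i _ => sq_nonneg _
  constructor
  · rw [← Real.sq_sqrt s1]
    exact pow_le_pow_left₀ h1 (by linarith) 2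
  · rw [← Real.sq_sqrt s2]
    exact pow_le_pow_left₀ h2 (by linarith) 2

include hF hm hn hC

lemma LX1 : B4 (law m n F) (L (cX1 n a1)) (KX θ κ C) := by
  have hm0 : 0 < m := by omega
  have hn0 : 0 < n := by omega
  have h := momH (m := m) (n := n) hF
  refine ⟨?_, ?_⟩
  · rw [law_eq]; exact h.L_int _ (by norm_num)
  · rw [law_eq]
    refine (h.L4 _).trans ?_
    have hK : 0 ≤ K4 θ κ := (sq_nonneg _).trans h.τK
    unfold KX
    refine mul_le_mul_of_nonneg_left ?_ (by positivity)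
    refine pow_le_pow_left₀ (Finset.sum_nonneg fun i _ => sq_nonneg _) ?_ 2
    have := X1_sq hm0 hn0 a1
    have := (coef_bd hC).1
    linarith

lemma LX2 : B4 (law m n F) (L (cX2 m a2)) (KX θ κ C) := by
  have hm0 : 0 < m := by omega
  have hn0 : 0 < n := by omega
  have h := momH (m := m) (n := n) hF
  refine ⟨?_, ?_⟩
  · rw [law_eq]; exact h.L_int _ (by norm_num)
  · rw [law_eq]
    refine (h.L4 _).trans ?_
    have hK : 0 ≤ K4 θ κ := (sq_nonneg _).trans h.τK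
    unfold KX
    refine mul_le_mul_of_nonneg_left ?_ (by positivity)
    refine pow_le_pow_left₀ (Finset.sum_nonneg fun i _ => sq_nonneg _) ?_ 2
    have := X2_sq hm0 hn0 a2
    have := (coef_bd hC).2
    linarith

include hθ

/-- The main estimate. -/
theorem main : Integrable (fun ω => hAb F μ θ a0 a1 a2 ω ^ 2) (law m n F) ∧
    g3 F μ θ a0 a1 a2 ≤ KK F θ κ C / (min m n : ℕ) ^ 2 := by
  have hP := law_prob (m := m) (n := n) hF
  have hm0 : 0 < m := by omega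
  have hn0 : 0 < n := by omega
  have hm' : (0:ℝ) < m := by exact_mod_cast hm0
  have hn' : (0:ℝ) < n := by exact_mod_cast hn0
  have h0 := hθ 0
  have h1 := hθ 1
  have h2 := hθ 2
  have p1 := l1_pos (n := n) hθ
  have p2 := l2_pos (m := m) hθ
  obtain ⟨iX1, bX1⟩ := LX1 hm hn hF hC
  obtain ⟨iX2, bX2⟩ := LX2 hm hn hF hC
  obtain ⟨iD, bD⟩ := De_B4 hm hn hF hθ
  obtain ⟨i1, b1⟩ := D1_B4 hm hn hF hθ
  obtain ⟨i2, b2⟩ := D2_B4 hm hn hF hθ
  set G1 : (Ix m n → ℝ) → ℝ := fun ω => L (cX1 n a1) ω ^ 4 + 8 * (De m n θ ω ^ 4 +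
    θ 0 ^ 4 * D1 m n θ ω ^ 4) with hG1
  set G2 : (Ix m n → ℝ) → ℝ := fun ω => L (cX2 m a2) ω ^ 4 + 8 * (De m n θ ω ^ 4 +
    θ 0 ^ 4 * D2 m n θ ω ^ 4) with hG2
  have iG1 : Integrable G1 (law m n F) := iX1.add ((iD.add (i1.const_mul _)).const_mul _)
  have iG2 : Integrable G2 (law m n F) := iX2.add ((iD.add (i2.const_mul _)).const_mul _)
  have bG1 : ∫ ω, G1 ω ∂(law m n F) ≤ KX θ κ C + KD F θ (θ 1) := by
    have j1 : Integrable (fun ω => θ 0 ^ 4 * D1 m n θ ω ^ 4) (law m n F) := i1.const_mul _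
    have j2 : Integrable (fun ω => De m n θ ω ^ 4 + θ 0 ^ 4 * D1 m n θ ω ^ 4) (law m n F) :=
      iD.add j1
    change ∫ ω, (L (cX1 n a1) ω ^ 4 + 8 * (De m n θ ω ^ 4 + θ 0 ^ 4 * D1 m n θ ω ^ 4))
      ∂(law m n F) ≤ _
    rw [integral_add iX1 (j2.const_mul _), integral_const_mul, integral_add iD j1,
      integral_const_mul]
    unfold KD
    have := mul_le_mul_of_nonneg_left b1 (show 0 ≤ θ 0 ^ 4 by positivity)
    linarith
  have bG2 : ∫ ω, G2 ω ∂(law m n F) ≤ KX θ κ C + KD F θ (θ 2) := by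
    have j1 : Integrable (fun ω => θ 0 ^ 4 * D2 m n θ ω ^ 4) (law m n F) := i2.const_mul _
    have j2 : Integrable (fun ω => De m n θ ω ^ 4 + θ 0 ^ 4 * D2 m n θ ω ^ 4) (law m n F) :=
      iD.add j1
    change ∫ ω, (L (cX2 m a2) ω ^ 4 + 8 * (De m n θ ω ^ 4 + θ 0 ^ 4 * D2 m n θ ω ^ 4))
      ∂(law m n F) ≤ _
    rw [integral_add iX2 (j2.const_mul _), integral_const_mul, integral_add iD j1,
      integral_const_mul]
    unfold KD
    have := mul_le_mul_of_nonneg_left b2 (show 0 ≤ θ 0 ^ 4 by positivity)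
    linarith
  have key : ∀ (X l D E : ℝ), 0 < l → ((X / l) * (D - θ 0 * E)) ^ 2 ≤
      1 / 2 * ((1 / l ^ 2) * (X ^ 4 + 8 * (D ^ 4 + θ 0 ^ 4 * E ^ 4))) := by
    intro X l D E hl
    have e1 : ((X / l) * (D - θ 0 * E)) ^ 2 = (1 / l ^ 2) * (X ^ 2 * (D - θ 0 * E) ^ 2) := by
      field_simp
    rw [e1]
    have e2 : X ^ 2 * (D - θ 0 * E) ^ 2 ≤ 1 / 2 * (X ^ 4 + (D - θ 0 * E) ^ 4) := by
      nlinarith [sq_nonneg (X ^ 2 - (D - θ 0 * E) ^ 2)]
    have e3 : ∀ a b : ℝ, (a - b) ^ 4 ≤ 8 * (a ^ 4 + b ^ 4) := by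
      intro a b
      have f1 : (a - b) ^ 2 ≤ 2 * (a ^ 2 + b ^ 2) := by nlinarith [sq_nonneg (a + b)]
      have f2 : ((a - b) ^ 2) ^ 2 ≤ (2 * (a ^ 2 + b ^ 2)) ^ 2 :=
        pow_le_pow_left₀ (sq_nonneg _) f1 2
      nlinarith [sq_nonneg (a ^ 2 - b ^ 2)]
    have e4 := e3 D (θ 0 * E)
    have e5 : (θ 0 * E) ^ 4 = θ 0 ^ 4 * E ^ 4 := by ring
    rw [e5] at e4
    have e6 : 0 ≤ 1 / l ^ 2 := by positivity
    calc 1 / l ^ 2 * (X ^ 2 * (D - θ 0 * E) ^ 2) ≤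
          1 / l ^ 2 * (1 / 2 * (X ^ 4 + 8 * (D ^ 4 + θ 0 ^ 4 * E ^ 4))) :=
          mul_le_mul_of_nonneg_left (by linarith) e6
      _ = _ := by ring
  have hle : ∀ ω, hAb F μ θ a0 a1 a2 ω ^ 2 ≤ 1 / l1 n θ ^ 2 * G1 ω + 1 / l2 m θ ^ 2 * G2 ω := by
    intro ω
    rw [hAb_eq hm hn hF hθ μ]
    have f1 := key (L (cX1 n a1) ω) (l1 n θ) (De m n θ ω) (D1 m n θ ω) p1
    have f2 := key (L (cX2 m a2) ω) (l2 m θ) (De m n θ ω) (D2 m n θ ω) p2
    have f3 : ∀ a b : ℝ, (a + b) ^ 2 ≤ 2 * a ^ 2 + 2 * b ^ 2 := fun a b => by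
      nlinarith [sq_nonneg (a - b)]
    refine (f3 _ _).trans ?_
    simp only [hG1, hG2]
    linarith
  have iG : Integrable (fun ω => 1 / l1 n θ ^ 2 * G1 ω + 1 / l2 m θ ^ 2 * G2 ω) (law m n F) :=
    (iG1.const_mul _).add (iG2.const_mul _)
  have hcont : Continuous (fun ω : Ix m n → ℝ => hAb F μ θ a0 a1 a2 ω) := by
    have e : (fun ω : Ix m n → ℝ => hAb F μ θ a0 a1 a2 ω) = fun ω =>
      (L (cX1 n a1) ω / l1 n θ) * (De m n θ ω - θ 0 * D1 m n θ ω) +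
      (L (cX2 m a2) ω / l2 m θ) * (De m n θ ω - θ 0 * D2 m n θ ω) :=
      funext fun ω => hAb_eq hm hn hF hθ μ a0 a1 a2 ω
    rw [e]
    have c1 := fun p : Obs m n => res_cont p
    have c2 := fun i : Fin m => rho_cont (n := n) i
    have c3 := fun i : Fin n => gam_cont (m := m) i
    unfold De D1 D2 L
    fun_prop
  have hI : Integrable (fun ω => hAb F μ θ a0 a1 a2 ω ^ 2) (law m n F) := by
    refine Integrable.mono' iG (hcont.pow 2).aestronglyMeasurable ?_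
    filter_upwards with ω
    rw [Real.norm_of_nonneg (by positivity)]
    exact hle ω
  refine ⟨hI, ?_⟩
  unfold g3
  refine (integral_mono hI iG hle).trans ?_
  rw [integral_add (iG1.const_mul _) (iG2.const_mul _), integral_const_mul, integral_const_mul]
  have hmin : (0:ℝ) < (min m n : ℕ) := by
    have : 0 < min m n := by omega
    exact_mod_cast this
  have nn1 : 0 ≤ KX θ κ C + KD F θ (θ 1) :=
    (integral_nonneg fun ω => by simp only [hG1, Pi.zero_apply]; positivity).trans bG1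
  have nn2 : 0 ≤ KX θ κ C + KD F θ (θ 2) :=
    (integral_nonneg fun ω => by simp only [hG2, Pi.zero_apply]; positivity).trans bG2
  have q1 : 1 / l1 n θ ^ 2 ≤ 1 / θ 1 ^ 2 / (min m n : ℕ) ^ 2 := by
    rw [div_div]
    refine one_div_le_one_div_of_le (by positivity) ?_
    rw [← mul_pow]
    refine pow_le_pow_left₀ (by positivity) ?_ 2
    have h3 : ((min m n : ℕ) : ℝ) ≤ n := by exact_mod_cast min_le_right m n
    have h4 : θ 1 * ((min m n : ℕ) : ℝ) ≤ θ 1 * n := mul_le_mul_of_nonneg_left h3 h1.le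
    have h5 : θ 1 * (n : ℝ) = n * θ 1 := mul_comm _ _
    unfold l1
    linarith
  have q2 : 1 / l2 m θ ^ 2 ≤ 1 / θ 2 ^ 2 / (min m n : ℕ) ^ 2 := by
    rw [div_div]
    refine one_div_le_one_div_of_le (by positivity) ?_
    rw [← mul_pow]
    refine pow_le_pow_left₀ (by positivity) ?_ 2
    have h3 : ((min m n : ℕ) : ℝ) ≤ m := by exact_mod_cast min_le_left m n
    have h4 : θ 2 * ((min m n : ℕ) : ℝ) ≤ θ 2 * m := mul_le_mul_of_nonneg_left h3 h2.le
    have h5 : θ 2 * (m : ℝ) = m * θ 2 := mul_comm _ _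
    unfold l2
    linarith
  have r1 : 1 / l1 n θ ^ 2 * ∫ ω, G1 ω ∂(law m n F) ≤
      1 / θ 1 ^ 2 / (min m n : ℕ) ^ 2 * (KX θ κ C + KD F θ (θ 1)) :=
    (mul_le_mul_of_nonneg_left bG1 (by positivity)).trans (mul_le_mul_of_nonneg_right q1 nn1)
  have r2 : 1 / l2 m θ ^ 2 * ∫ ω, G2 ω ∂(law m n F) ≤
      1 / θ 2 ^ 2 / (min m n : ℕ) ^ 2 * (KX θ κ C + KD F θ (θ 2)) :=
    (mul_le_mul_of_nonneg_left bG2 (by positivity)).trans (mul_le_mul_of_nonneg_right q2 nn2)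
  refine (add_le_add r1 r2).trans (le_of_eq ?_)
  unfold KK
  generalize ((min m n : ℕ) : ℝ) = M
  generalize KX θ κ C + KD F θ (θ 1) = x1
  generalize KX θ κ C + KD F θ (θ 2) = x2
  ring

end

end Pool.Agent.R999.Rem
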