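import Pool.Agent.R999.Rem.Defs

set_option autoImplicit false

open MeasureTheory ProbabilityTheory Filter Topology

namespace Pool.Agent.R999.Rem

variable {S : Type*} [Fintype S]

/-- Moment hypotheses on the factors of a product measure. -/
structure MomH (ν : S → Measure ℝ) (σ : S → ℝ) (τ K K8 : ℝ) : Prop where
  prob : ∀ s, IsProbabilityMeasure (ν s)
  i8 : ∀ s, Integrable (fun x => x ^ 8) (ν s)
  m1 : ∀ s, ∫ x, x ∂(ν s) = 0
  m2 : ∀ s, ∫ x, x ^ 2 ∂(ν s) = σ s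
  σ0 : ∀ s, 0 ≤ σ s
  σle : ∀ s, σ s ≤ τ
  m4 : ∀ s, ∫ x, x ^ 4 ∂(ν s) ≤ K
  τK : τ ^ 2 ≤ K
  m8 : ∀ s, ∫ x, x ^ 8 ∂(ν s) ≤ K8

lemma int_add3 {Ω : Type*} [MeasurableSpace Ω] {μ : Measure Ω} {f1 f2 f3 : Ω → ℝ}
    (h1 : Integrable f1 μ) (h2 : Integrable f2 μ) (h3 : Integrable f3 μ) :
    ∫ x, (f1 x + f2 x + f3 x) ∂μ = ∫ x, f1 x ∂μ + ∫ x, f2 x ∂μ + ∫ x, f3 x ∂μ := by
  rw [integral_add (f := fun x => f1 x + f2 x) (h1.add h2) h3, integral_add h1 h2]

lemma int_add5 {Ω : Type*} [MeasurableSpace Ω] {μ : Measure Ω} {f1 f2 f3 f4 f5 : Ω → ℝ}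
    (h1 : Integrable f1 μ) (h2 : Integrable f2 μ) (h3 : Integrable f3 μ) (h4 : Integrable f4 μ)
    (h5 : Integrable f5 μ) :
    ∫ x, (f1 x + f2 x + f3 x + f4 x + f5 x) ∂μ = ∫ x, f1 x ∂μ + ∫ x, f2 x ∂μ + ∫ x, f3 x ∂μ +
      ∫ x, f4 x ∂μ + ∫ x, f5 x ∂μ := by
  rw [int_add3 (f1 := fun x => f1 x + f2 x + f3 x) ((h1.add h2).add h3) h4 h5, int_add3 h1 h2 h3]

lemma pow_le_one_add {x : ℝ} {k : ℕ} (hk : k ≤ 8) : |x ^ k| ≤ 1 + x ^ 8 := by
  rw [abs_pow]
  have h8 : x ^ 8 = |x| ^ 8 := by rw [← abs_pow, abs_of_nonneg (by positivity)]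
  rw [h8]
  have h0 : 0 ≤ |x| := abs_nonneg x
  rcases le_total |x| 1 with h | h
  · have : |x| ^ k ≤ 1 := pow_le_one₀ h0 h
    have : 0 ≤ |x| ^ 8 := by positivity
    linarith
  · have : |x| ^ k ≤ |x| ^ 8 := pow_le_pow_right₀ h hk
    linarith

variable {ν : S → Measure ℝ} {σ : S → ℝ} {τ K K8 : ℝ}

lemma MomH.ik (h : MomH ν σ τ K K8) (s : S) {k : ℕ} (hk : k ≤ 8) :
    Integrable (fun x => x ^ k) (ν s) := by
  have := h.prob s
  refine Integrable.mono' ((integrable_const 1).add (h.i8 s)) (by fun_prop) ?_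
  filter_upwards with x
  exact pow_le_one_add hk

lemma MomH.mp (h : MomH ν σ τ K K8) (s : S) :
    MeasurePreserving (fun ω : S → ℝ => ω s) (Measure.pi ν) (ν s) := by
  have := h.prob
  exact measurePreserving_eval ν s

lemma MomH.coord_int (h : MomH ν σ τ K K8) (s : S) {k : ℕ} (hk : k ≤ 8) :
    Integrable (fun ω : S → ℝ => ω s ^ k) (Measure.pi ν) :=
  (h.mp s).integrable_comp_of_integrable (h.ik s hk)

lemma MomH.coord (h : MomH ν σ τ K K8) (s : S) (k : ℕ) :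
    ∫ ω : S → ℝ, ω s ^ k ∂(Measure.pi ν) = ∫ x, x ^ k ∂(ν s) := by
  have h1 := (h.mp s).map_eq
  have h2 : Measurable (fun ω : S → ℝ => ω s) := measurable_pi_apply s
  rw [← h1, integral_map h2.aemeasurable (continuous_pow k).aestronglyMeasurable]

/-- the partial linear form -/
def Lf (c : S → ℝ) (A : Finset S) (ω : S → ℝ) : ℝ := ∑ s ∈ A, c s * ω s

lemma Lf_cont (c : S → ℝ) (A : Finset S) : Continuous (Lf c A) := by
  unfold Lf; fun_prop

/-- eighth powers of linear forms -/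
lemma Lf_pow_le (c : S → ℝ) (A : Finset S) (ω : S → ℝ) :
    (Lf c A ω) ^ 8 ≤ (A.card : ℝ) ^ 7 * ∑ s ∈ A, c s ^ 8 * ω s ^ 8 := by
  unfold Lf
  rcases A.eq_empty_or_nonempty with rfl | hA
  · simp
  have hc : (0:ℝ) < A.card := by exact_mod_cast Finset.card_pos.mpr hA
  have h1 := Real.pow_arith_mean_le_arith_mean_pow_of_even A (fun _ => (1:ℝ) / A.card)
    (fun s => A.card * (c s * ω s)) (fun _ _ => by positivity)
    (by rw [Finset.sum_const, nsmul_eq_mul]; field_simp) (n := 8) (by decide)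
  have e1 : ∑ i ∈ A, 1 / (A.card : ℝ) * (A.card * (c i * ω i)) = ∑ s ∈ A, c s * ω s := by
    refine Finset.sum_congr rfl fun i _ => ?_
    field_simp
  have e2 : ∑ i ∈ A, 1 / (A.card : ℝ) * (A.card * (c i * ω i)) ^ 8 =
      (A.card : ℝ) ^ 7 * ∑ s ∈ A, c s ^ 8 * ω s ^ 8 := by
    rw [Finset.mul_sum]
    refine Finset.sum_congr rfl fun i _ => ?_
    field_simp
  rw [e1, e2] at h1
  exact h1

lemma MomH.Lf_int8 (h : MomH ν σ τ K K8) (c : S → ℝ) (A : Finset S) :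
    Integrable (fun ω => Lf c A ω ^ 8) (Measure.pi ν) := by
  have := h.prob
  refine Integrable.mono' (g := fun ω => (A.card : ℝ) ^ 7 * ∑ s ∈ A, c s ^ 8 * ω s ^ 8) ?_
    ((Lf_cont c A).pow 8).aestronglyMeasurable ?_
  · refine Integrable.const_mul (integrable_finsetSum _ fun s _ => ?_) _
    exact (h.coord_int s le_rfl).const_mul _
  · filter_upwards with ω
    rw [Real.norm_of_nonneg (by positivity)]
    exact Lf_pow_le c A ω

lemma MomH.Lf_int (h : MomH ν σ τ K K8) (c : S → ℝ) (A : Finset S) {k : ℕ} (hk : k ≤ 8) :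
    Integrable (fun ω => Lf c A ω ^ k) (Measure.pi ν) := by
  have := h.prob
  refine Integrable.mono' ((integrable_const 1).add (h.Lf_int8 c A))
    ((Lf_cont c A).pow k).aestronglyMeasurable ?_
  filter_upwards with x
  exact pow_le_one_add hk

lemma MomH.indep (h : MomH ν σ τ K K8) [DecidableEq S] (c : S → ℝ) {A : Finset S} {t : S}
    (ht : t ∉ A) :
    IndepFun (fun ω => Lf c A ω) (fun ω : S → ℝ => ω t) (Measure.pi ν) := by
  have := h.prob
  have h1 : iIndepFun (fun (i : S) (ω : S → ℝ) => ω i) (Measure.pi ν) :=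
    iIndepFun_pi (μ := ν) (X := fun _ x => x) fun i => aemeasurable_id
  have h2 := h1.indepFun_finset (S := A) (T := {t}) (by simpa using ht)
    (fun i => measurable_pi_apply i)
  have hψ : Measurable (fun v : ({t} : Finset S) → ℝ => v ⟨t, Finset.mem_singleton_self t⟩) :=
    measurable_pi_apply (⟨t, Finset.mem_singleton_self t⟩ : ({t} : Finset S))
  have h3 := h2.comp (φ := fun v : A → ℝ => ∑ s : A, c s * v s)
    (ψ := fun v : ({t} : Finset S) → ℝ => v ⟨t, Finset.mem_singleton_self t⟩)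
    (by fun_prop) hψ
  have e : (fun v : A → ℝ => ∑ s : A, c s * v s) ∘ (fun (a : S → ℝ) (i : A) => a i) =
      fun ω => Lf c A ω := by
    funext ω
    unfold Lf
    simp only [Function.comp]
    exact Finset.sum_coe_sort A (fun s => c s * ω s)
  rw [e] at h3
  exact h3

lemma MomH.mix (h : MomH ν σ τ K K8) [DecidableEq S] (c : S → ℝ) {A : Finset S} {t : S}
    (ht : t ∉ A) (a b : ℕ) :
    ∫ ω, Lf c A ω ^ a * ω t ^ b ∂(Measure.pi ν) =
      (∫ ω, Lf c A ω ^ a ∂(Measure.pi ν)) * ∫ x, x ^ b ∂(ν t) := by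
  have := h.prob
  have h1 := (h.indep c ht).comp (φ := fun x : ℝ => x ^ a) (ψ := fun x : ℝ => x ^ b)
    (by fun_prop) (by fun_prop)
  have h2 := h1.integral_mul_eq_mul_integral
    ((Lf_cont c A).pow a).aestronglyMeasurable
    (show Continuous ((fun x : ℝ => x ^ b) ∘ fun ω : S → ℝ => ω t) from by fun_prop).aestronglyMeasurable
  rw [← h.coord t b]
  exact h2

lemma MomH.mix_int (h : MomH ν σ τ K K8) (c : S → ℝ) (A : Finset S) (t : S) {a b : ℕ}
    (ha : a ≤ 4) (hb : b ≤ 4) :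
    Integrable (fun ω => Lf c A ω ^ a * ω t ^ b) (Measure.pi ν) := by
  have := h.prob
  refine Integrable.mono' (g := fun ω => Lf c A ω ^ (2 * a) + ω t ^ (2 * b))
    ((h.Lf_int c A (by omega)).add (h.coord_int t (by omega))) ?_ ?_
  · exact (((Lf_cont c A).pow a).mul ((continuous_apply t).pow b)).aestronglyMeasurable
  · filter_upwards with ω
    rw [Real.norm_eq_abs, abs_mul]
    have e1 : Lf c A ω ^ (2 * a) = |Lf c A ω ^ a| ^ 2 := by rw [sq_abs, ← pow_mul, mul_comm]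
    have e2 : ω t ^ (2 * b) = |ω t ^ b| ^ 2 := by rw [sq_abs, ← pow_mul, mul_comm]
    rw [e1, e2]
    nlinarith [sq_nonneg (|Lf c A ω ^ a| - |ω t ^ b|), sq_nonneg (|Lf c A ω ^ a|),
      sq_nonneg (|ω t ^ b|)]

lemma Lf_insert [DecidableEq S] (c : S → ℝ) {A : Finset S} {t : S} (ht : t ∉ A) (ω : S → ℝ) :
    Lf c (insert t A) ω = Lf c A ω + c t * ω t := by
  unfold Lf
  rw [Finset.sum_insert ht, add_comm]

lemma MomH.E1 (h : MomH ν σ τ K K8) (c : S → ℝ) (A : Finset S) :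
    ∫ ω, Lf c A ω ∂(Measure.pi ν) = 0 := by
  have := h.prob
  unfold Lf
  rw [integral_finsetSum]
  · refine Finset.sum_eq_zero fun s _ => ?_
    rw [integral_const_mul]
    have := h.coord s 1
    simp only [pow_one] at this
    rw [this, h.m1, mul_zero]
  · intro s _
    have := (h.coord_int s (k := 1) (by norm_num)).const_mul (c s)
    simpa using this

lemma MomH.E2 (h : MomH ν σ τ K K8) [DecidableEq S] (c : S → ℝ) (A : Finset S) :
    ∫ ω, Lf c A ω ^ 2 ∂(Measure.pi ν) = ∑ s ∈ A, c s ^ 2 * σ s := by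
  have := h.prob
  induction A using Finset.induction_on with
  | empty => simp [Lf]
  | insert t A ht ih =>
    rw [Finset.sum_insert ht]
    have e : ∀ ω, Lf c (insert t A) ω ^ 2 = Lf c A ω ^ 2 + (2 * c t) * (Lf c A ω ^ 1 * ω t ^ 1) +
        c t ^ 2 * ω t ^ 2 := by
      intro ω
      rw [Lf_insert c ht]; ring
    simp_rw [e]
    have i1 := h.Lf_int c A (k := 2) (by norm_num)
    have i2 := (h.mix_int c A t (a := 1) (b := 1) (by norm_num) (by norm_num)).const_mul (2 * c t)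
    have i3 := (h.coord_int t (k := 2) (by norm_num)).const_mul (c t ^ 2)
    rw [int_add3 i1 i2 i3, integral_const_mul, integral_const_mul,
      h.mix c ht, h.coord, h.m2, ih]
    have : ∫ x, x ^ 1 ∂(ν t) = 0 := by simpa using h.m1 t
    rw [this]
    ring

lemma MomH.E4 (h : MomH ν σ τ K K8) [DecidableEq S] (c : S → ℝ) (A : Finset S) :
    ∫ ω, Lf c A ω ^ 4 ∂(Measure.pi ν) ≤ 3 * K * (∑ s ∈ A, c s ^ 2) ^ 2 := by
  have := h.prob
  have hK : 0 ≤ K := (sq_nonneg τ).trans h.τK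
  induction A using Finset.induction_on with
  | empty => simp [Lf]
  | insert t A ht ih =>
    rw [Finset.sum_insert ht]
    have e : ∀ ω, Lf c (insert t A) ω ^ 4 = Lf c A ω ^ 4 + (4 * c t) * (Lf c A ω ^ 3 * ω t ^ 1) +
        (6 * c t ^ 2) * (Lf c A ω ^ 2 * ω t ^ 2) + (4 * c t ^ 3) * (Lf c A ω ^ 1 * ω t ^ 3) +
        c t ^ 4 * ω t ^ 4 := by
      intro ω
      rw [Lf_insert c ht]; ring
    simp_rw [e]
    have i1 := h.Lf_int c A (k := 4) (by norm_num)
    have i2 := (h.mix_int c A t (a := 3) (b := 1) (by norm_num) (by norm_num)).const_mul (4 * c t)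
    have i3 := (h.mix_int c A t (a := 2) (b := 2) (by norm_num) (by norm_num)).const_mul
      (6 * c t ^ 2)
    have i4 := (h.mix_int c A t (a := 1) (b := 3) (by norm_num) (by norm_num)).const_mul
      (4 * c t ^ 3)
    have i5 := (h.coord_int t (k := 4) (by norm_num)).const_mul (c t ^ 4)
    rw [int_add5 i1 i2 i3 i4 i5, integral_const_mul, integral_const_mul,
      integral_const_mul, integral_const_mul, h.mix c ht, h.mix c ht, h.mix c ht, h.coord,
      h.E2, h.m2]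
    have z1 : ∫ x, x ^ 1 ∂(ν t) = 0 := by simpa using h.m1 t
    have z2 : ∫ ω, Lf c A ω ^ 1 ∂(Measure.pi ν) = 0 := by simpa using h.E1 c A
    rw [z1, z2]
    have b1 : ∑ s ∈ A, c s ^ 2 * σ s ≤ τ * ∑ s ∈ A, c s ^ 2 := by
      rw [Finset.mul_sum]
      refine Finset.sum_le_sum fun s _ => ?_
      rw [mul_comm]
      exact mul_le_mul_of_nonneg_right (h.σle s) (sq_nonneg _)
    have hτ : 0 ≤ τ := (h.σ0 t).trans (h.σle t)
    have hT : 0 ≤ ∑ s ∈ A, c s ^ 2 := Finset.sum_nonneg fun s _ => sq_nonneg _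
    have hT' : 0 ≤ ∑ s ∈ A, c s ^ 2 * σ s :=
      Finset.sum_nonneg fun s _ => mul_nonneg (sq_nonneg _) (h.σ0 s)
    set T := ∑ s ∈ A, c s ^ 2
    have b2 : (∑ s ∈ A, c s ^ 2 * σ s) * σ t ≤ K * T := by
      calc (∑ s ∈ A, c s ^ 2 * σ s) * σ t ≤ (τ * T) * τ :=
            mul_le_mul b1 (h.σle t) (h.σ0 t) (by positivity)
        _ = τ ^ 2 * T := by ring
        _ ≤ K * T := mul_le_mul_of_nonneg_right h.τK hT
    have b3 := h.m4 t
    have b4 : (6 * c t ^ 2) * ((∑ s ∈ A, c s ^ 2 * σ s) * σ t) ≤ (6 * c t ^ 2) * (K * T) :=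
      mul_le_mul_of_nonneg_left b2 (by positivity)
    have b5 : c t ^ 4 * ∫ x, x ^ 4 ∂(ν t) ≤ c t ^ 4 * K :=
      mul_le_mul_of_nonneg_left b3 (by positivity)
    have b6 : 0 ≤ c t ^ 4 * K := by positivity
    nlinarith [b4, b5, b6, ih]

/-! ### full linear forms -/

/-- a linear form -/
def L (c : S → ℝ) (ω : S → ℝ) : ℝ := ∑ s, c s * ω s

lemma MomH.L2 (h : MomH ν σ τ K K8) [DecidableEq S] (c : S → ℝ) :
    ∫ ω, L c ω ^ 2 ∂(Measure.pi ν) = ∑ s, c s ^ 2 * σ s := h.E2 c Finset.univ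
lemma MomH.L4 (h : MomH ν σ τ K K8) [DecidableEq S] (c : S → ℝ) :
    ∫ ω, L c ω ^ 4 ∂(Measure.pi ν) ≤ 3 * K * (∑ s, c s ^ 2) ^ 2 := h.E4 c Finset.univ
lemma MomH.L_int (h : MomH ν σ τ K K8) (c : S → ℝ) {k : ℕ} (hk : k ≤ 8) :
    Integrable (fun ω => L c ω ^ k) (Measure.pi ν) := h.Lf_int c Finset.univ hk

end Pool.Agent.R999.Rem
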