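import Pool.Agent.R999.Rem.Alg

set_option autoImplicit false

open MeasureTheory Matrix

namespace Pool.Agent.R999.Rem

variable {m n : ℕ}

/-- eigenvalue `σ₀² + n σ₁²` -/
noncomputable def l1 (n : ℕ) (θ : Par) : ℝ := θ 0 + n * θ 1
/-- eigenvalue `σ₀² + m σ₂²` -/
noncomputable def l2 (m : ℕ) (θ : Par) : ℝ := θ 0 + m * θ 2
/-- eigenvalue of the constants -/
noncomputable def l12 (m n : ℕ) (θ : Par) : ℝ := θ 0 + n * θ 1 + m * θ 2

lemma l1_pos {θ : Par} (h : Pos θ) : 0 < l1 n θ := by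
  have h0 := h 0
  have h1 := h 1
  unfold l1; positivity
lemma l2_pos {θ : Par} (h : Pos θ) : 0 < l2 m θ := by
  have h0 := h 0
  have h1 := h 2
  unfold l2; positivity
lemma l12_pos {θ : Par} (h : Pos θ) : 0 < l12 m n θ := by
  have h0 := h 0
  have h1 := h 1
  have h2 := h 2
  unfold l12; positivity

lemma log_det {θ : Par} (h : Pos θ) :
    Real.log (V m n θ).det = ((m:ℝ) - 1) * (n - 1) * Real.log (θ 0) +
      ((m:ℝ) - 1) * Real.log (l1 n θ) + ((n:ℝ) - 1) * Real.log (l2 m θ) +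
      Real.log (l12 m n θ) := by
  rw [V_det h]
  have h0 := h 0
  have a1 := l1_pos (n := n) h
  have a2 := l2_pos (m := m) h
  have a3 := l12_pos (m := m) (n := n) h
  change Real.log (θ 0 ^ (m * n) * ((l1 n θ / θ 0) ^ m * (l2 m θ / θ 0) ^ n *
      (l12 m n θ * θ 0 / (l1 n θ * l2 m θ)))) = _
  have b1 : (0:ℝ) < θ 0 ^ (m * n) := by positivity
  have b2 : 0 < (l1 n θ / θ 0) ^ m := by positivity
  have b3 : 0 < (l2 m θ / θ 0) ^ n := by positivity
  have b4 : 0 < l12 m n θ * θ 0 / (l1 n θ * l2 m θ) := by positivity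
  rw [Real.log_mul b1.ne' (by positivity), Real.log_mul (by positivity) b4.ne',
    Real.log_mul b2.ne' b3.ne', Real.log_pow, Real.log_pow, Real.log_pow,
    Real.log_div a1.ne' h0.ne', Real.log_div a2.ne' h0.ne',
    Real.log_div (by positivity) (by positivity), Real.log_mul a3.ne' h0.ne',
    Real.log_mul a1.ne' a2.ne']
  push_cast
  ring

/-- row sums -/
def Rs (y : Obs m n → ℝ) (i : Fin m) : ℝ := ∑ j, y (i, j)
/-- column sums -/
def Cs (y : Obs m n → ℝ) (j : Fin n) : ℝ := ∑ i, y (i, j)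
/-- total -/
def Ts (y : Obs m n → ℝ) : ℝ := ∑ p, y p

lemma sum_Rs (y : Obs m n → ℝ) : ∑ i, Rs y i = Ts y := by
  unfold Rs Ts
  rw [Fintype.sum_prod_type]

lemma sum_Cs (y : Obs m n → ℝ) : ∑ j, Cs y j = Ts y := by
  unfold Cs Ts
  rw [Fintype.sum_prod_type_right]

lemma J1_mulVec (y : Obs m n → ℝ) : J1 m n *ᵥ y = fun p => Rs y p.1 := by
  funext p
  simp only [Matrix.mulVec, dotProduct, J1, Matrix.of_apply, Fintype.sum_prod_type, Rs, ite_mul,
    one_mul, zero_mul]
  rw [Finset.sum_comm]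
  simp

lemma J2_mulVec (y : Obs m n → ℝ) : J2 m n *ᵥ y = fun p => Cs y p.2 := by
  funext p
  simp only [Matrix.mulVec, dotProduct, J2, Matrix.of_apply, Fintype.sum_prod_type, Cs, ite_mul,
    one_mul, zero_mul]
  simp

lemma J0_mulVec (y : Obs m n → ℝ) : J0 m n *ᵥ y = fun _ => Ts y := by
  funext p
  simp only [Matrix.mulVec, dotProduct, J0, Matrix.of_apply, Ts, one_mul]

/-- coefficients of `W` -/
noncomputable def wb (n : ℕ) (θ : Par) : ℝ := (1 / l1 n θ - 1 / θ 0) / n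
/-- coefficients of `W` -/
noncomputable def wc (m : ℕ) (θ : Par) : ℝ := (1 / l2 m θ - 1 / θ 0) / m
/-- coefficients of `W` -/
noncomputable def wd (m n : ℕ) (θ : Par) : ℝ :=
  (1 / θ 0 - 1 / l1 n θ - 1 / l2 m θ + 1 / l12 m n θ) / (m * n)

lemma W_mulVec (θ : Par) (y : Obs m n → ℝ) : W m n θ *ᵥ y = fun p =>
    1 / θ 0 * y p + wb n θ * Rs y p.1 + wc m θ * Cs y p.2 + wd m n θ * Ts y := by
  unfold W
  simp only [Matrix.add_mulVec, Matrix.smul_mulVec, Matrix.one_mulVec, J1_mulVec, J2_mulVec,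
    J0_mulVec]
  funext p
  simp only [Pi.add_apply, Pi.smul_apply, smul_eq_mul]
  rfl

lemma W_symm (θ : Par) : (W m n θ)ᵀ = W m n θ := by
  have h1 : (J1 m n)ᵀ = J1 m n := by ext p q; simp [J1, eq_comm]
  have h2 : (J2 m n)ᵀ = J2 m n := by ext p q; simp [J2, eq_comm]
  have h0 : (J0 m n)ᵀ = J0 m n := by ext p q; simp [J0]
  unfold W
  simp [Matrix.transpose_add, Matrix.transpose_smul, h1, h2, h0]

lemma Rs_ones (i : Fin m) : Rs (ones : Obs m n → ℝ) i = n := by simp [Rs, ones]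
lemma Cs_ones (i : Fin n) : Cs (ones : Obs m n → ℝ) i = m := by simp [Cs, ones]
lemma Ts_ones : Ts (ones : Obs m n → ℝ) = m * n := by simp [Ts, ones]

lemma W_ones (hm : 0 < m) (hn : 0 < n) {θ : Par} (h : Pos θ) :
    W m n θ *ᵥ ones = fun _ => 1 / l12 m n θ := by
  rw [W_mulVec]
  funext p
  rw [Rs_ones, Cs_ones, Ts_ones]
  unfold wb wc wd ones
  have h0 := h 0
  have a1 := l1_pos (n := n) h
  have a2 := l2_pos (m := m) h
  have a3 := l12_pos (m := m) (n := n) h
  have hm' : (0:ℝ) < m := by exact_mod_cast hm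
  have hn' : (0:ℝ) < n := by exact_mod_cast hn
  field_simp
  ring

lemma ones_W_ones (hm : 0 < m) (hn : 0 < n) {θ : Par} (h : Pos θ) :
    ones ⬝ᵥ (W m n θ *ᵥ ones) = m * n / l12 m n θ := by
  rw [W_ones hm hn h]
  simp [dotProduct, ones, div_eq_mul_inv]

lemma ones_W (hm : 0 < m) (hn : 0 < n) {θ : Par} (h : Pos θ) :
    ones ᵥ* W m n θ = fun _ => 1 / l12 m n θ := by
  rw [← W_ones hm hn h, ← Matrix.mulVec_transpose, W_symm]

/-- sum of squares -/
noncomputable def SSe (y : Obs m n → ℝ) : ℝ :=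
  (∑ p, y p ^ 2) - (∑ i, Rs y i ^ 2) / n - (∑ j, Cs y j ^ 2) / m + Ts y ^ 2 / (m * n)
/-- sum of squares -/
noncomputable def SS1 (y : Obs m n → ℝ) : ℝ := (∑ i, Rs y i ^ 2) / n - Ts y ^ 2 / (m * n)
/-- sum of squares -/
noncomputable def SS2 (y : Obs m n → ℝ) : ℝ := (∑ j, Cs y j ^ 2) / m - Ts y ^ 2 / (m * n)

lemma quad (hm : 0 < m) (hn : 0 < n) {θ : Par} (h : Pos θ) (y : Obs m n → ℝ) :
    y ⬝ᵥ (P m n θ *ᵥ y) = SSe y / θ 0 + SS1 y / l1 n θ + SS2 y / l2 m θ := by
  unfold P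
  rw [V_inv hm hn h, ones_W_ones hm hn h, W_ones hm hn h, ones_W hm hn h, Matrix.sub_mulVec,
    Matrix.smul_mulVec, Matrix.vecMulVec_mulVec, dotProduct_sub, W_mulVec]
  have e1 : (y ⬝ᵥ fun p => 1 / θ 0 * y p + wb n θ * Rs y p.1 + wc m θ * Cs y p.2 +
      wd m n θ * Ts y) = 1 / θ 0 * (∑ p, y p ^ 2) + wb n θ * (∑ i, Rs y i ^ 2) +
      wc m θ * (∑ j, Cs y j ^ 2) + wd m n θ * Ts y ^ 2 := by
    have f1 : ∑ i, Rs y i ^ 2 = ∑ p : Obs m n, y p * Rs y p.1 := by
      rw [Fintype.sum_prod_type]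
      refine Finset.sum_congr rfl fun i _ => ?_
      simp only
      rw [← Finset.sum_mul, sq]; rfl
    have f2 : ∑ j, Cs y j ^ 2 = ∑ p : Obs m n, y p * Cs y p.2 := by
      rw [Fintype.sum_prod_type_right]
      refine Finset.sum_congr rfl fun i _ => ?_
      simp only
      rw [← Finset.sum_mul, sq]; rfl
    have f3 : Ts y ^ 2 = ∑ p : Obs m n, y p * Ts y := by
      rw [← Finset.sum_mul, sq]; rfl
    rw [f1, f2, f3]
    simp only [dotProduct, Finset.mul_sum, ← Finset.sum_add_distrib]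
    refine Finset.sum_congr rfl fun p _ => ?_
    ring
  rw [e1]
  have e2 : (fun _ : Obs m n => 1 / l12 m n θ) ⬝ᵥ y = Ts y / l12 m n θ := by
    simp only [dotProduct, ← Finset.mul_sum]
    unfold Ts
    ring
  rw [e2]
  have e3 : y ⬝ᵥ ((↑m * ↑n / l12 m n θ)⁻¹ • MulOpposite.op (Ts y / l12 m n θ) •
      fun _ : Obs m n => 1 / l12 m n θ) =
      (↑m * ↑n / l12 m n θ)⁻¹ * ((Ts y / l12 m n θ) * (Ts y / l12 m n θ)) := by
    rw [dotProduct_smul, dotProduct_smul]
    have : (y ⬝ᵥ fun _ => 1 / l12 m n θ) = Ts y / l12 m n θ := by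
      rw [dotProduct_comm]; exact e2
    rw [this]
    simp only [MulOpposite.smul_eq_mul_unop, MulOpposite.unop_op, smul_eq_mul]
  rw [e3]
  unfold SSe SS1 SS2 wb wc wd
  have h0 := h 0
  have a1 := l1_pos (n := n) h
  have a2 := l2_pos (m := m) h
  have a3 := l12_pos (m := m) (n := n) h
  have hm' : (0:ℝ) < m := by exact_mod_cast hm
  have hn' : (0:ℝ) < n := by exact_mod_cast hn
  field_simp
  ring

lemma reml_eq (hm : 0 < m) (hn : 0 < n) {θ : Par} (h : Pos θ) (y : Obs m n → ℝ) :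
    reml y θ = -(1/2) * (((m:ℝ) - 1) * (n - 1) * Real.log (θ 0) +
      ((m:ℝ) - 1) * Real.log (l1 n θ) + ((n:ℝ) - 1) * Real.log (l2 m θ) + Real.log (m * n) +
      (SSe y / θ 0 + SS1 y / l1 n θ + SS2 y / l2 m θ)) := by
  unfold reml
  rw [log_det h, quad hm hn h, V_inv hm hn h, ones_W_ones hm hn h]
  have a3 := l12_pos (m := m) (n := n) h
  have hm' : (0:ℝ) < m := by exact_mod_cast hm
  have hn' : (0:ℝ) < n := by exact_mod_cast hn
  rw [Real.log_div (by positivity) a3.ne']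
  ring

/-- row contrast -/
noncomputable def X1 (a1 : Fin m → ℝ) (y : Obs m n → ℝ) : ℝ := ∑ i, a1 i * (Rs y i / n - ybar y)
/-- column contrast -/
noncomputable def X2 (a2 : Fin n → ℝ) (y : Obs m n → ℝ) : ℝ := ∑ j, a2 j * (Cs y j / m - ybar y)

lemma blup_eq (hm : 0 < m) (hn : 0 < n) {θ : Par} (h : Pos θ) (a0 : ℝ) (a1 : Fin m → ℝ)
    (a2 : Fin n → ℝ) (y : Obs m n → ℝ) :
    blup a0 a1 a2 y θ = a0 * ybar y + (1 - θ 0 / l1 n θ) * X1 a1 y +
      (1 - θ 0 / l2 m θ) * X2 a2 y := by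
  have h0 := h 0
  have b1 := l1_pos (n := n) h
  have b2 := l2_pos (m := m) h
  have a3 := l12_pos (m := m) (n := n) h
  have hm' : (0:ℝ) < m := by exact_mod_cast hm
  have hn' : (0:ℝ) < n := by exact_mod_cast hn
  unfold blup
  rw [V_inv hm hn h, W_mulVec, add_assoc]
  congr 1
  set x : Obs m n → ℝ := y - ybar y • ones with hx
  have hT : Ts x = 0 := by
    have : Ts x = Ts y - ybar y * (m * n) := by
      rw [hx]; unfold Ts ones
      simp only [Pi.sub_apply, Pi.smul_apply, smul_eq_mul, mul_one, Finset.sum_sub_distrib,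
        Finset.sum_const, Finset.card_univ, Fintype.card_prod, Fintype.card_fin, nsmul_eq_mul]
      push_cast
      ring
    rw [this]
    unfold ybar
    change Ts y - Ts y / (m * n) * (m * n) = 0
    field_simp
    ring
  have hR : ∀ i, Rs x i = n * (Rs y i / n - ybar y) := by
    intro i
    rw [hx]; unfold Rs ones
    simp only [Pi.sub_apply, Pi.smul_apply, smul_eq_mul, mul_one, Finset.sum_sub_distrib,
      Finset.sum_const, Finset.card_univ, Fintype.card_fin, nsmul_eq_mul]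
    field_simp
  have hC : ∀ j, Cs x j = m * (Cs y j / m - ybar y) := by
    intro i
    rw [hx]; unfold Cs ones
    simp only [Pi.sub_apply, Pi.smul_apply, smul_eq_mul, mul_one, Finset.sum_sub_distrib,
      Finset.sum_const, Finset.card_univ, Fintype.card_fin, nsmul_eq_mul]
    field_simp
  have hZ : ∀ w : Obs m n → ℝ, (Z m n)ᵀ *ᵥ w = Sum.elim (Rs w) (Cs w) := by
    intro w
    funext s
    rcases s with i | j
    · simp only [Matrix.mulVec, dotProduct, Z, Matrix.transpose_apply, Matrix.of_apply,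
        Sum.elim_inl, Rs, Fintype.sum_prod_type, ite_mul, one_mul, zero_mul]
      rw [Finset.sum_comm]
      simp
    · simp only [Matrix.mulVec, dotProduct, Z, Matrix.transpose_apply, Matrix.of_apply,
        Sum.elim_inr, Cs, Fintype.sum_prod_type, ite_mul, one_mul, zero_mul]
      simp
  rw [hZ]
  set w : Obs m n → ℝ := fun p => 1 / θ 0 * x p + wb n θ * Rs x p.1 + wc m θ * Cs x p.2 +
    wd m n θ * Ts x with hw
  have hRw : ∀ i, Rs w i = Rs x i / l1 n θ := by
    intro i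
    have : Rs w i = 1 / θ 0 * Rs x i + n * (wb n θ * Rs x i) + wc m θ * Ts x := by
      rw [← sum_Cs x]
      have hRR : ∀ z : Obs m n → ℝ, Rs z i = ∑ j, z (i, j) := fun z => rfl
      rw [hRR w, hw]
      simp only [hT, mul_zero, add_zero]
      rw [Finset.sum_add_distrib, Finset.sum_add_distrib, ← Finset.mul_sum, ← Finset.mul_sum,
        Finset.sum_const, ← hRR x, ← Finset.mul_sum]
      simp only [Finset.card_univ, Fintype.card_fin, nsmul_eq_mul]
      ring
    rw [this, hT]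
    unfold wb
    field_simp
    ring
  have hCw : ∀ j, Cs w j = Cs x j / l2 m θ := by
    intro j
    have : Cs w j = 1 / θ 0 * Cs x j + wb n θ * Ts x + m * (wc m θ * Cs x j) := by
      rw [← sum_Rs x]
      have hCC : ∀ z : Obs m n → ℝ, Cs z j = ∑ i, z (i, j) := fun z => rfl
      rw [hCC w, hw]
      simp only [hT, mul_zero, add_zero]
      rw [Finset.sum_add_distrib, Finset.sum_add_distrib, ← Finset.mul_sum, ← Finset.mul_sum,
        Finset.sum_const, ← hCC x]
      simp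
    rw [this, hT]
    unfold wc
    field_simp
    ring
  have hG : G m n θ *ᵥ Sum.elim (Rs w) (Cs w) =
      Sum.elim (fun i => θ 1 * Rs w i) (fun j => θ 2 * Cs w j) := by
    unfold G
    funext s
    rw [Matrix.mulVec_diagonal]
    rcases s with i | j <;> simp
  rw [hG]
  simp only [dotProduct, Fintype.sum_sum_type, Sum.elim_inl, Sum.elim_inr]
  unfold X1 X2
  rw [Finset.mul_sum, Finset.mul_sum]
  congr 1
  · refine Finset.sum_congr rfl fun i _ => ?_
    rw [hRw, hR]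
    have : 1 - θ 0 / l1 n θ = n * θ 1 / l1 n θ := by
      rw [eq_div_iff b1.ne', sub_mul, div_mul_cancel₀ _ b1.ne']
      unfold l1; ring
    rw [this]
    field_simp
  · refine Finset.sum_congr rfl fun i _ => ?_
    rw [hCw, hC]
    have : 1 - θ 0 / l2 m θ = m * θ 2 / l2 m θ := by
      rw [eq_div_iff b2.ne', sub_mul, div_mul_cancel₀ _ b2.ne']
      unfold l2; ring
    rw [this]
    field_simp

end Pool.Agent.R999.Rem
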