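import Pool.Agent.R999.Rem.Der
import Pool.Agent.R999.Rem.Mom

set_option autoImplicit false

open MeasureTheory ProbabilityTheory Filter Topology

namespace Pool.Agent.R999.Rem

variable {m n : ℕ}

/-! ### sums of squares -/

lemma SS1_eq (hm : 0 < m) (hn : 0 < n) (y : Obs m n → ℝ) :
    SS1 y = n * ∑ i, (Rs y i / n - ybar y) ^ 2 := by
  have hm' : (0:ℝ) < m := by exact_mod_cast hm
  have hn' : (0:ℝ) < n := by exact_mod_cast hn
  have e : ∀ i, (Rs y i / n - ybar y) ^ 2 = Rs y i ^ 2 * (1 / n ^ 2) - Rs y i * (2 * ybar y / n) +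
      ybar y ^ 2 := by intro i; field_simp; ring
  simp_rw [e]
  rw [Finset.sum_add_distrib, Finset.sum_sub_distrib, ← Finset.sum_mul, ← Finset.sum_mul, sum_Rs,
    Finset.sum_const, Finset.card_univ, Fintype.card_fin, nsmul_eq_mul]
  unfold SS1
  change _ = _ * (_ - Ts y * (2 * (Ts y / (m * n)) / n) + m * (Ts y / (m * n)) ^ 2)
  field_simp
  ring

lemma SS2_eq (hm : 0 < m) (hn : 0 < n) (y : Obs m n → ℝ) :
    SS2 y = m * ∑ j, (Cs y j / m - ybar y) ^ 2 := by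
  have hm' : (0:ℝ) < m := by exact_mod_cast hm
  have hn' : (0:ℝ) < n := by exact_mod_cast hn
  have e : ∀ i, (Cs y i / m - ybar y) ^ 2 = Cs y i ^ 2 * (1 / m ^ 2) - Cs y i * (2 * ybar y / m) +
      ybar y ^ 2 := by intro i; field_simp; ring
  simp_rw [e]
  rw [Finset.sum_add_distrib, Finset.sum_sub_distrib, ← Finset.sum_mul, ← Finset.sum_mul, sum_Cs,
    Finset.sum_const, Finset.card_univ, Fintype.card_fin, nsmul_eq_mul]
  unfold SS2
  change _ = _ * (_ - Ts y * (2 * (Ts y / (m * n)) / m) + n * (Ts y / (m * n)) ^ 2)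
  field_simp
  ring

lemma SSe_eq (hm : 0 < m) (hn : 0 < n) (y : Obs m n → ℝ) :
    SSe y = ∑ p : Obs m n, (y p - Rs y p.1 / n - Cs y p.2 / m + ybar y) ^ 2 := by
  have hm' : (0:ℝ) < m := by exact_mod_cast hm
  have hn' : (0:ℝ) < n := by exact_mod_cast hn
  have e : ∀ p : Obs m n, (y p - Rs y p.1 / n - Cs y p.2 / m + ybar y) ^ 2 =
      y p ^ 2 + Rs y p.1 ^ 2 * (1 / n ^ 2) + Cs y p.2 ^ 2 * (1 / m ^ 2) + ybar y ^ 2 -
      (y p * Rs y p.1) * (2 / n) - (y p * Cs y p.2) * (2 / m) + y p * (2 * ybar y) +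
      (Rs y p.1 * Cs y p.2) * (2 / (n * m)) - Rs y p.1 * (2 * ybar y / n) -
      Cs y p.2 * (2 * ybar y / m) := by
    intro p; field_simp; ring
  simp_rw [e]
  simp only [Finset.sum_add_distrib, Finset.sum_sub_distrib, ← Finset.sum_mul]
  have f1 : ∑ p : Obs m n, y p * Rs y p.1 = ∑ i, Rs y i ^ 2 := by
    rw [Fintype.sum_prod_type]
    refine Finset.sum_congr rfl fun i _ => ?_
    simp only
    rw [← Finset.sum_mul, sq]; rfl
  have f2 : ∑ p : Obs m n, y p * Cs y p.2 = ∑ j, Cs y j ^ 2 := by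
    rw [Fintype.sum_prod_type_right]
    refine Finset.sum_congr rfl fun i _ => ?_
    simp only
    rw [← Finset.sum_mul, sq]; rfl
  have f3 : ∑ p : Obs m n, Rs y p.1 ^ 2 = n * ∑ i, Rs y i ^ 2 := by
    rw [Fintype.sum_prod_type_right]
    simp
  have f4 : ∑ p : Obs m n, Cs y p.2 ^ 2 = m * ∑ j, Cs y j ^ 2 := by
    rw [Fintype.sum_prod_type]
    simp
  have f5 : ∑ p : Obs m n, Rs y p.1 = n * Ts y := by
    rw [Fintype.sum_prod_type_right]
    simp [sum_Rs]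
  have f6 : ∑ p : Obs m n, Cs y p.2 = m * Ts y := by
    rw [Fintype.sum_prod_type]
    simp [sum_Cs]
  have f7 : ∑ p : Obs m n, Rs y p.1 * Cs y p.2 = Ts y * Ts y := by
    rw [Fintype.sum_prod_type]
    simp only
    simp_rw [← Finset.mul_sum]
    rw [← Finset.sum_mul, sum_Rs, sum_Cs]
  have f8 : ∑ _p : Obs m n, ybar y ^ 2 = m * n * ybar y ^ 2 := by
    simp
  have f9 : ∑ p : Obs m n, y p = Ts y := rfl
  rw [f1, f2, f3, f4, f5, f6, f7, f8, f9]
  have hy : ybar y = Ts y / (m * n) := rfl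
  rw [hy]
  unfold SSe
  field_simp
  ring

/-! ### centred quantities in terms of the basic variables -/

/-- `u_i` -/
def uu (ω : Ix m n → ℝ) (i : Fin m) : ℝ := ω (Sum.inl i)
/-- `v_j` -/
def vv (ω : Ix m n → ℝ) (j : Fin n) : ℝ := ω (Sum.inr (Sum.inl j))
/-- `e_{ij}` -/
def ee (ω : Ix m n → ℝ) (p : Obs m n) : ℝ := ω (Sum.inr (Sum.inr p))

lemma Rs_obs (μ : ℝ) (ω : Ix m n → ℝ) (i : Fin m) :
    Rs (obs μ ω) i = n * μ + n * uu ω i + ∑ j, vv ω j + Rs (ee ω) i := by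
  unfold Rs obs uu vv ee
  simp only [Finset.sum_add_distrib, Finset.sum_const, Finset.card_univ, Fintype.card_fin,
    nsmul_eq_mul]

lemma Cs_obs (μ : ℝ) (ω : Ix m n → ℝ) (j : Fin n) :
    Cs (obs μ ω) j = m * μ + ∑ i, uu ω i + m * vv ω j + Cs (ee ω) j := by
  unfold Cs obs uu vv ee
  simp only [Finset.sum_add_distrib, Finset.sum_const, Finset.card_univ, Fintype.card_fin,
    nsmul_eq_mul]

lemma Ts_obs (μ : ℝ) (ω : Ix m n → ℝ) :
    Ts (obs μ ω) = m * n * μ + n * ∑ i, uu ω i + m * ∑ j, vv ω j + Ts (ee ω) := by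
  rw [← sum_Rs]
  simp_rw [Rs_obs]
  simp only [Finset.sum_add_distrib, Finset.sum_const, Finset.card_univ, Fintype.card_fin,
    nsmul_eq_mul, ← Finset.mul_sum, sum_Rs]
  ring

/-- `ρ_i` -/
noncomputable def rho (ω : Ix m n → ℝ) (i : Fin m) : ℝ :=
  uu ω i - (∑ i, uu ω i) / m + Rs (ee ω) i / n - Ts (ee ω) / (m * n)
/-- `γ_j` -/
noncomputable def gam (ω : Ix m n → ℝ) (j : Fin n) : ℝ :=
  vv ω j - (∑ j, vv ω j) / n + Cs (ee ω) j / m - Ts (ee ω) / (m * n)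
/-- the residual `r_{ij}` -/
noncomputable def res (ω : Ix m n → ℝ) (p : Obs m n) : ℝ :=
  ee ω p - Rs (ee ω) p.1 / n - Cs (ee ω) p.2 / m + Ts (ee ω) / (m * n)

section
variable (hm : 0 < m) (hn : 0 < n) (μ : ℝ) (ω : Ix m n → ℝ)
include hm hn

lemma rho_eq (i : Fin m) : Rs (obs μ ω) i / n - ybar (obs μ ω) = rho ω i := by
  have hm' : (0:ℝ) < m := by exact_mod_cast hm
  have hn' : (0:ℝ) < n := by exact_mod_cast hn
  have hy : ybar (obs μ ω) = Ts (obs μ ω) / (m * n) := rfl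
  rw [hy, Rs_obs, Ts_obs]
  unfold rho
  field_simp
  ring

lemma gam_eq (j : Fin n) : Cs (obs μ ω) j / m - ybar (obs μ ω) = gam ω j := by
  have hm' : (0:ℝ) < m := by exact_mod_cast hm
  have hn' : (0:ℝ) < n := by exact_mod_cast hn
  have hy : ybar (obs μ ω) = Ts (obs μ ω) / (m * n) := rfl
  rw [hy, Cs_obs, Ts_obs]
  unfold gam
  field_simp
  ring

lemma res_eq (p : Obs m n) : obs μ ω p - Rs (obs μ ω) p.1 / n - Cs (obs μ ω) p.2 / m +
    ybar (obs μ ω) = res ω p := by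
  have hm' : (0:ℝ) < m := by exact_mod_cast hm
  have hn' : (0:ℝ) < n := by exact_mod_cast hn
  have hy : ybar (obs μ ω) = Ts (obs μ ω) / (m * n) := rfl
  have ho : obs μ ω p = μ + uu ω p.1 + vv ω p.2 + ee ω p := rfl
  rw [hy, ho, Rs_obs, Cs_obs, Ts_obs]
  unfold res
  field_simp
  ring

lemma SS1_obs : SS1 (obs μ ω) = n * ∑ i, rho ω i ^ 2 := by
  rw [SS1_eq hm hn]
  simp_rw [rho_eq hm hn μ ω]

lemma SS2_obs : SS2 (obs μ ω) = m * ∑ j, gam ω j ^ 2 := by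
  rw [SS2_eq hm hn]
  simp_rw [gam_eq hm hn μ ω]

lemma SSe_obs : SSe (obs μ ω) = ∑ p, res ω p ^ 2 := by
  rw [SSe_eq hm hn]
  simp_rw [res_eq hm hn μ ω]

lemma X1_obs (a1 : Fin m → ℝ) : X1 a1 (obs μ ω) = ∑ i, a1 i * rho ω i := by
  unfold X1
  simp_rw [rho_eq hm hn μ ω]

lemma X2_obs (a2 : Fin n → ℝ) : X2 a2 (obs μ ω) = ∑ j, a2 j * gam ω j := by
  unfold X2
  simp_rw [gam_eq hm hn μ ω]

end

end Pool.Agent.R999.Rem
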